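import Mathlib

set_option autoImplicit false

open Topology Set Filter

namespace Pool.Agent.Helper75

universe u v w

/-- Covering dimension at most `n`: every finite open cover has a finite open refinement of
order at most `n + 1`. -/
def DimLE (X : Type u) [TopologicalSpace X] (n : ℕ) : Prop :=
  ∀ (ι : Type) [Finite ι] (U : ι → Set X), (∀ i, IsOpen (U i)) → (⋃ i, U i) = Set.univ →
    ∃ (κ : Type) (_ : Finite κ) (V : κ → Set X),
      (∀ k, IsOpen (V k)) ∧ (⋃ k, V k) = Set.univ ∧ (∀ k, ∃ i, V k ⊆ U i) ∧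
      ∀ x, Nat.card {k // x ∈ V k} ≤ n + 1

/-- Relative version for a subset `F` of a space, with precise refinements. -/
def DimOn {X : Type u} [TopologicalSpace X] (F : Set X) (n : ℕ) : Prop :=
  ∀ (ι : Type) [Finite ι] (U : ι → Set X), (∀ i, IsOpen (U i)) → F ⊆ ⋃ i, U i →
    ∃ V : ι → Set X, (∀ i, IsOpen (V i)) ∧ F ⊆ (⋃ i, V i) ∧ (∀ i, V i ⊆ U i) ∧
      ∀ x ∈ F, Nat.card {i // x ∈ V i} ≤ n + 1

variable {X : Type u} {Y : Type v} [TopologicalSpace X] [TopologicalSpace Y]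

lemma card_subtype_mono {ι : Type*} [Finite ι] {p q : ι → Prop} (h : ∀ i, p i → q i) :
    Nat.card {i // p i} ≤ Nat.card {i // q i} :=
  Nat.card_le_card_of_injective (Subtype.map id h) (Subtype.map_injective h Function.injective_id)

/-- It is enough to find refinements which are not necessarily precise. -/
theorem dimOn_of_refine {F : Set X} {n : ℕ}
    (h : ∀ (ι : Type) [Finite ι] (U : ι → Set X), (∀ i, IsOpen (U i)) → F ⊆ ⋃ i, U i →
      ∃ (κ : Type) (_ : Finite κ) (V : κ → Set X), (∀ k, IsOpen (V k)) ∧ F ⊆ (⋃ k, V k) ∧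
        (∀ k, ∃ i, V k ⊆ U i) ∧ ∀ x ∈ F, Nat.card {k // x ∈ V k} ≤ n + 1) : DimOn F n := by
  intro ι _ U hU hF
  obtain ⟨κ, _, V, hVo, hFV, hVU, hVc⟩ := h ι U hU hF
  choose φ hφ using hVU
  refine ⟨fun i => ⋃ k, ⋃ _ : φ k = i, V k, fun i => isOpen_iUnion fun k => isOpen_iUnion
    fun _ => hVo k, ?_, ?_, ?_⟩
  · intro x hx
    obtain ⟨k, hk⟩ := mem_iUnion.1 (hFV hx)
    exact mem_iUnion.2 ⟨φ k, mem_iUnion₂.2 ⟨k, rfl, hk⟩⟩
  · intro i x hx
    obtain ⟨k, hk, hxk⟩ := mem_iUnion₂.1 hx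
    exact hk ▸ hφ k hxk
  · intro x hx
    refine le_trans ?_ (hVc x hx)
    -- choose for every `i` with `x` in the union a `k`
    have hch : ∀ i : {i // x ∈ ⋃ k, ⋃ _ : φ k = i, V k}, ∃ k, φ k = i.1 ∧ x ∈ V k := by
      rintro ⟨i, hi⟩
      obtain ⟨k, hk, hxk⟩ := mem_iUnion₂.1 hi
      exact ⟨k, hk, hxk⟩
    choose ψ hψ1 hψ2 using hch
    refine Nat.card_le_card_of_injective (fun i => (⟨ψ i, hψ2 i⟩ : {k // x ∈ V k})) ?_
    intro i j hij
    have : ψ i = ψ j := congrArg Subtype.val hij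
    exact Subtype.ext (by rw [← hψ1 i, ← hψ1 j, this])

theorem dimLE_iff_dimOn {n : ℕ} : DimLE X n ↔ DimOn (univ : Set X) n := by
  constructor
  · intro h
    refine dimOn_of_refine fun ι _ U hU hF => ?_
    obtain ⟨κ, hκ, V, h1, h2, h3, h4⟩ := h ι U hU (univ_subset_iff.1 hF)
    exact ⟨κ, hκ, V, h1, h2.ge, h3, fun x _ => h4 x⟩
  · intro h ι _ U hU hF
    obtain ⟨V, h1, h2, h3, h4⟩ := h ι U hU hF.ge
    exact ⟨ι, inferInstance, V, h1, univ_subset_iff.1 h2, fun k => ⟨k, h3 k⟩,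
      fun x => h4 x (mem_univ x)⟩

/-- Closed subset theorem. -/
theorem DimOn.mono_closed {F F' : Set X} {n : ℕ} (h : DimOn F n) (hF' : IsClosed F')
    (hsub : F' ⊆ F) : DimOn F' n := by
  intro ι _ U hU hc
  let U' : Option ι → Set X := fun o => o.elim F'ᶜ U
  obtain ⟨V, h1, h2, h3, h4⟩ := h (Option ι) U' (by
    rintro (_ | i)
    · exact hF'.isOpen_compl
    · exact hU i) (by
    intro x _
    by_cases hx' : x ∈ F'
    · obtain ⟨i, hi⟩ := mem_iUnion.1 (hc hx')
      exact mem_iUnion.2 ⟨some i, hi⟩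
    · exact mem_iUnion.2 ⟨none, hx'⟩)
  refine ⟨fun i => V (some i), fun i => h1 _, ?_, fun i => h3 (some i), ?_⟩
  · intro x hx
    obtain ⟨o, ho⟩ := mem_iUnion.1 (h2 (hsub hx))
    cases o with
    | none => exact absurd hx (h3 none ho)
    | some i => exact mem_iUnion.2 ⟨i, ho⟩
  · intro x hx
    refine le_trans ?_ (h4 x (hsub hx))
    refine Nat.card_le_card_of_injective
      (fun i => (⟨some i.1, i.2⟩ : {o : Option ι // x ∈ V o})) ?_
    intro i j hij
    exact Subtype.ext (Option.some_injective _ (congrArg Subtype.val hij))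

/-- Swelling lemma. -/
theorem exists_swelling [NormalSpace X] {ι : Type} [Finite ι] (C U : ι → Set X)
    (hC : ∀ i, IsClosed (C i)) (hU : ∀ i, IsOpen (U i)) (hCU : ∀ i, C i ⊆ U i) (n : ℕ)
    (hord : ∀ x, Nat.card {i // x ∈ C i} ≤ n) :
    ∃ W : ι → Set X, (∀ i, IsOpen (W i)) ∧ (∀ i, C i ⊆ W i) ∧ (∀ i, W i ⊆ U i) ∧
      ∀ x, Nat.card {i // x ∈ W i} ≤ n := by
  classical
  have := Fintype.ofFinite ι
  -- for a family `J` with empty intersection of the `C j`, there are open neighbourhoods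
  have key : ∀ J : Finset ι, (⋂ j ∈ J, C j) = ∅ →
      ∃ O : ι → Set X, (∀ i, IsOpen (O i)) ∧ (∀ i, C i ⊆ O i) ∧ (⋂ j ∈ J, O j) = ∅ := by
    intro J hJ
    have hcov : (⋃ j : J, (C j)ᶜ) = univ := by
      rw [← compl_iInter, ← compl_empty, compl_inj_iff, ← hJ]
      ext x
      simp
    obtain ⟨v, hv1, hv2, hv3⟩ := exists_iUnion_eq_closed_subset
      (fun j : J => (hC j).isOpen_compl) (fun x => Set.toFinite _) hcov
    refine ⟨fun i => if h : i ∈ J then (v ⟨i, h⟩)ᶜ else univ, ?_, ?_, ?_⟩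
    · intro i
      by_cases h : i ∈ J
      · simp only [h, dif_pos]
        exact (hv2 _).isOpen_compl
      · simp [h]
    · intro i
      by_cases h : i ∈ J
      · simp only [h, dif_pos]
        exact fun x hx hxv => hv3 ⟨i, h⟩ hxv hx
      · simp [h]
    · rw [eq_empty_iff_forall_notMem]
      intro x hx
      obtain ⟨j, hj⟩ := mem_iUnion.1 (hv1.ge (mem_univ x))
      have h1 := mem_iInter₂.1 hx j.1 j.2
      simp only [j.2, dif_pos] at h1
      exact h1 hj
  choose! O hO1 hO2 hO3 using key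
  refine ⟨fun i => U i ∩ ⋂ J : {J : Finset ι // (⋂ j ∈ J, C j) = ∅}, O J.1 i, ?_, ?_, ?_, ?_⟩
  · intro i
    exact (hU i).inter (isOpen_iInter_of_finite fun J => hO1 J.1 J.2 i)
  · intro i x hx
    exact ⟨hCU i hx, mem_iInter.2 fun J => hO2 J.1 J.2 i hx⟩
  · intro i x hx
    exact hx.1
  · intro x
    by_contra hlt
    push Not at hlt
    let J : Finset ι := Finset.univ.filter fun i =>
      x ∈ U i ∩ ⋂ J : {J : Finset ι // (⋂ j ∈ J, C j) = ∅}, O J.1 i
    have hJcard : n < J.card := by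
      have : Nat.card {i // x ∈ U i ∩ ⋂ J : {J : Finset ι // (⋂ j ∈ J, C j) = ∅}, O J.1 i}
          = J.card := by
        rw [Nat.card_eq_fintype_card, Fintype.card_subtype]
      rwa [this] at hlt
    have hJe : (⋂ j ∈ J, C j) = ∅ := by
      rw [eq_empty_iff_forall_notMem]
      intro y hy
      have h1 := hord y
      have h2 : J.card ≤ Nat.card {i // y ∈ C i} := by
        rw [Nat.card_eq_fintype_card, Fintype.card_subtype]
        refine Finset.card_le_card fun j hj => ?_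
        simp only [Finset.mem_filter, Finset.mem_univ, true_and]
        exact mem_iInter₂.1 hy j hj
      omega
    have : x ∈ ⋂ j ∈ J, O J j := by
      refine mem_iInter₂.2 fun j hj => ?_
      have := (Finset.mem_filter.1 hj).2.2
      exact mem_iInter.1 this ⟨J, hJe⟩
    rw [hO3 J hJe] at this
    exact this

/-- Countable sum theorem for normal spaces. -/
theorem dimOn_univ_of_iUnion [NormalSpace X] {n : ℕ} (F : ℕ → Set X) (hF : ∀ k, IsClosed (F k))
    (hFn : ∀ k, DimOn (F k) n) (hcov : ⋃ k, F k = univ) : DimOn (univ : Set X) n := by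
  classical
  intro ι _ U₀ hU₀ hU₀c
  -- one step
  have step : ∀ (k : ℕ) (U : ι → Set X), (∀ i, IsOpen (U i)) → (⋃ i, U i) = univ →
      ∃ W : ι → Set X, (∀ i, IsOpen (W i)) ∧ (⋃ i, W i) = univ ∧ (∀ i, closure (W i) ⊆ U i) ∧
        ∀ x ∈ F k, Nat.card {i // x ∈ closure (W i)} ≤ n + 1 := by
    intro k U hU hUc
    obtain ⟨V, hV1, hV2, hV3, hV4⟩ := hFn k ι U hU (hUc.ge.trans' (subset_univ _))
    let U' : ι → Set X := fun i => U i ∩ ((F k)ᶜ ∪ V i)
    have hU' : ∀ i, IsOpen (U' i) := fun i => (hU i).inter ((hF k).isOpen_compl.union (hV1 i))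
    have hU'c : (⋃ i, U' i) = univ := by
      refine eq_univ_of_forall fun x => ?_
      by_cases hx : x ∈ F k
      · obtain ⟨i, hi⟩ := mem_iUnion.1 (hV2 hx)
        exact mem_iUnion.2 ⟨i, hV3 i hi, Or.inr hi⟩
      · obtain ⟨i, hi⟩ := mem_iUnion.1 (hUc.ge (mem_univ x))
        exact mem_iUnion.2 ⟨i, hi, Or.inl hx⟩
    obtain ⟨W, hW1, hW2, hW3⟩ := exists_iUnion_eq_closure_subset hU' (fun x => Set.toFinite _) hU'c
    refine ⟨W, hW2, hW1, fun i => (hW3 i).trans inter_subset_left, fun x hx => ?_⟩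
    refine le_trans (card_subtype_mono fun i hi => ?_) (hV4 x hx)
    rcases (hW3 i hi).2 with h | h
    · exact absurd hx h
    · exact h
  choose! Φ hΦ1 hΦ2 hΦ3 hΦ4 using step
  let R : ℕ → (ι → Set X) := fun n => Nat.rec U₀ (fun k W => Φ k W) n
  have hRs : ∀ k, R (k + 1) = Φ k (R k) := fun _ => rfl
  have hR : ∀ k, (∀ i, IsOpen (R k i)) ∧ (⋃ i, R k i) = univ := by
    intro k
    induction k with
    | zero => exact ⟨hU₀, univ_subset_iff.1 hU₀c⟩
    | succ k ih =>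
      rw [hRs]
      exact ⟨hΦ1 k _ ih.1 ih.2, hΦ2 k _ ih.1 ih.2⟩
  have hRanti : ∀ i, Antitone fun k => R k i := by
    intro i
    refine antitone_nat_of_succ_le fun k => ?_
    change R (k + 1) i ⊆ R k i
    rw [hRs]
    exact subset_closure.trans (hΦ3 k _ (hR k).1 (hR k).2 i)
  let C : ι → Set X := fun i => ⋂ k, closure (R (k + 1) i)
  have hC : ∀ i, IsClosed (C i) := fun i => isClosed_iInter fun k => isClosed_closure
  have hCU : ∀ i, C i ⊆ U₀ i := by
    intro i x hx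
    have := mem_iInter.1 hx 0
    rw [hRs] at this
    exact hΦ3 0 _ (hR 0).1 (hR 0).2 i this
  have hCcov : (⋃ i, C i) = univ := by
    refine eq_univ_of_forall fun x => ?_
    have h1 : ∀ k, ∃ i, x ∈ R k i := fun k => mem_iUnion.1 ((hR k).2.ge (mem_univ x))
    choose f hf using h1
    obtain ⟨i, hi⟩ := Finite.exists_infinite_fiber f
    have hinf : (f ⁻¹' {i}).Infinite := Set.infinite_coe_iff.1 hi
    refine mem_iUnion.2 ⟨i, mem_iInter.2 fun k => ?_⟩
    obtain ⟨m, hm, hkm⟩ := hinf.exists_gt k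
    have h2 : x ∈ R m i := by
      have := hf m
      rwa [show f m = i from hm] at this
    exact subset_closure (hRanti i (Nat.succ_le_of_lt hkm) h2)
  have hCord : ∀ x, Nat.card {i // x ∈ C i} ≤ n + 1 := by
    intro x
    obtain ⟨k, hk⟩ := mem_iUnion.1 (hcov.ge (mem_univ x))
    exact le_trans (card_subtype_mono fun i hi => mem_iInter.1 hi k)
      (hΦ4 k (R k) (hR k).1 (hR k).2 x hk)
  obtain ⟨W, hW1, hW2, hW3, hW4⟩ := exists_swelling C U₀ hC hU₀ hCU (n + 1) hCord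
  refine ⟨W, hW1, ?_, hW3, fun x _ => hW4 x⟩
  rw [univ_subset_iff, ← univ_subset_iff, ← hCcov]
  exact iUnion_mono hW2

/-- Transfer of dimension bounds to compact subsets along a continuous map which is injective on
the compact set. -/
theorem dimOn_of_compact [T2Space Y] {K : Set X} (hK : IsCompact K) (f : X → Y)
    (hf : Continuous f) (hinj : InjOn f K) {n : ℕ} (h : DimOn (univ : Set Y) n) :
    DimOn K n := by
  intro ι _ U hU hKU
  have hfK : IsClosed (f '' K) := (hK.image hf).isClosed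
  have hY : DimOn (f '' K) n := h.mono_closed hfK (subset_univ _)
  let U' : ι → Set Y := fun i => (f '' (K \ U i))ᶜ
  obtain ⟨V, h1, h2, h3, h4⟩ := hY ι U' (fun i =>
      ((hK.diff (hU i)).image hf).isClosed.isOpen_compl) (by
    rintro _ ⟨x, hx, rfl⟩
    obtain ⟨i, hi⟩ := mem_iUnion.1 (hKU hx)
    refine mem_iUnion.2 ⟨i, ?_⟩
    rintro ⟨y, ⟨hyK, hyU⟩, hxy⟩
    exact hyU (hinj hyK hx hxy ▸ hi))
  refine ⟨fun i => f ⁻¹' (V i) ∩ U i, fun i => ((h1 i).preimage hf).inter (hU i), ?_,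
    fun i => inter_subset_right, ?_⟩
  · intro x hx
    obtain ⟨i, hi⟩ := mem_iUnion.1 (h2 ⟨x, hx, rfl⟩)
    refine mem_iUnion.2 ⟨i, hi, ?_⟩
    by_contra hxU
    exact h3 i hi ⟨x, ⟨hx, hxU⟩, rfl⟩
  · intro x hx
    exact le_trans (card_subtype_mono fun i hi => hi.1) (h4 (f x) ⟨x, hx, rfl⟩)

/-- Relative dimension bound for a subset gives the bound for the subspace. -/
theorem dimOn_subtype {F : Set X} {n : ℕ} (h : DimOn F n) : DimOn (univ : Set F) n := by
  intro ι _ U hU hc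
  choose O hO1 hO2 using fun i => isOpen_induced_iff.1 (hU i)
  obtain ⟨V, h1, h2, h3, h4⟩ := h ι O hO1 (by
    intro x hx
    obtain ⟨i, hi⟩ := mem_iUnion.1 (hc (mem_univ (⟨x, hx⟩ : F)))
    rw [← hO2 i] at hi
    exact mem_iUnion.2 ⟨i, hi⟩)
  refine ⟨fun i => Subtype.val ⁻¹' V i, fun i => (h1 i).preimage continuous_subtype_val, ?_, ?_, ?_⟩
  · intro x _
    obtain ⟨i, hi⟩ := mem_iUnion.1 (h2 x.2)
    exact mem_iUnion.2 ⟨i, hi⟩
  · intro i x hx
    rw [← hO2 i]
    exact h3 i hx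
  · intro x _
    exact h4 x x.2

end Pool.Agent.Helper75
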