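import Mathlib

/-!
# Differential graded rings, perfect modules and `K₀`

Homological grading is used throughout: differentials have degree `-1`.
A differential graded ring is (a strict model of) an `𝔼₁`-`ℤ`-algebra; its homotopy ring is its
homology ring, and its perfect modules are the perfect DG modules.
-/

set_option autoImplicit false

namespace Pool.Agent.Helper75.DG

universe u

/-- A differential graded ring: a ring `A`, the internal direct sum of subgroups `gr n` (`n : ℤ`)
with `1 ∈ gr 0` and `gr m * gr n ⊆ gr (m + n)`, and a differential `d` of degree `-1` with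
`d (a * b) = d a * b + (-1)^|a| a * d b`. -/
structure DGRing where
  /-- the underlying ring -/
  A : Type u
  [ring : Ring A]
  /-- the homogeneous components -/
  gr : ℤ → AddSubgroup A
  isInternal : DirectSum.IsInternal gr
  one_mem : 1 ∈ gr 0
  mul_mem : ∀ m n a b, a ∈ gr m → b ∈ gr n → a * b ∈ gr (m + n)
  /-- the differential -/
  d : A →+ A
  d_mem : ∀ n a, a ∈ gr n → d a ∈ gr (n - 1)
  d_d : ∀ a, d (d a) = 0
  leibniz_even : ∀ n a b, Even n → a ∈ gr n → d (a * b) = d a * b + a * d b
  leibniz_odd : ∀ n a b, Odd n → a ∈ gr n → d (a * b) = d a * b - a * d b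

attribute [instance] DGRing.ring

/-- A left differential graded module over a differential graded ring. -/
structure DGModule (R : DGRing.{u}) where
  /-- the underlying module -/
  M : Type u
  [addCommGroup : AddCommGroup M]
  [module : Module R.A M]
  /-- the homogeneous components -/
  gr : ℤ → AddSubgroup M
  isInternal : DirectSum.IsInternal gr
  smul_mem : ∀ (m n : ℤ) (a : R.A) (x : M), a ∈ R.gr m → x ∈ gr n → a • x ∈ gr (m + n)
  /-- the differential -/
  d : M →+ M
  d_mem : ∀ n x, x ∈ gr n → d x ∈ gr (n - 1)
  d_d : ∀ x, d (d x) = 0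
  leibniz_even : ∀ (n : ℤ) (a : R.A) (x : M), Even n → a ∈ R.gr n →
    d (a • x) = R.d a • x + a • d x
  leibniz_odd : ∀ (n : ℤ) (a : R.A) (x : M), Odd n → a ∈ R.gr n →
    d (a • x) = R.d a • x - a • d x

attribute [instance] DGModule.addCommGroup DGModule.module

variable {R : DGRing.{u}}

/-- A morphism of DG modules: an `R`-linear map of degree `0` commuting with the differentials. -/
structure DGModule.Hom (M N : DGModule R) where
  /-- the underlying linear map -/
  f : M.M →ₗ[R.A] N.M
  map_gr : ∀ n x, x ∈ M.gr n → f x ∈ N.gr n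
  map_d : ∀ x, f (M.d x) = N.d (f x)

/-- A quasi-isomorphism: a morphism inducing a bijection on homology. The first condition is
injectivity on homology, the second one is surjectivity. -/
def DGModule.Hom.QuasiIso {M N : DGModule R} (φ : DGModule.Hom M N) : Prop :=
  (∀ x, M.d x = 0 → (∃ y, N.d y = φ.f x) → ∃ z, M.d z = x) ∧
    ∀ y, N.d y = 0 → ∃ x, M.d x = 0 ∧ ∃ z, y = φ.f x + N.d z

/-- Short exact sequences `0 → M' → M → M'' → 0` of DG modules. -/
def DGModule.ShortExact {M' M M'' : DGModule R} (φ : DGModule.Hom M' M)
    (ψ : DGModule.Hom M M'') : Prop :=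
  Function.Injective φ.f ∧ Function.Surjective ψ.f ∧ ∀ x, ψ.f x = 0 ↔ ∃ y, φ.f y = x

/-- `R` as a DG module over itself. -/
def DGModule.self (R : DGRing.{u}) : DGModule R where
  M := R.A
  gr := R.gr
  isInternal := R.isInternal
  smul_mem := R.mul_mem
  d := R.d
  d_mem := R.d_mem
  d_d := R.d_d
  leibniz_even := R.leibniz_even
  leibniz_odd := R.leibniz_odd

/-- Perfect DG modules: the smallest class of DG modules which contains `R`, is closed under
quasi-isomorphisms, has the two out of three property for short exact sequences, and is closed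
under retracts. (These are the objects of the thick subcategory of `D(R)` generated by `R`,
i.e. the compact objects.) -/
inductive DGModule.Perfect : DGModule R → Prop
  | self : Perfect (DGModule.self R)
  | of_source {M N : DGModule R} (φ : Hom M N) : φ.QuasiIso → Perfect M → Perfect N
  | of_target {M N : DGModule R} (φ : Hom M N) : φ.QuasiIso → Perfect N → Perfect M
  | middle {M' M M'' : DGModule R} (φ : Hom M' M) (ψ : Hom M M'') :
      ShortExact φ ψ → Perfect M' → Perfect M'' → Perfect M
  | left {M' M M'' : DGModule R} (φ : Hom M' M) (ψ : Hom M M'') :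
      ShortExact φ ψ → Perfect M → Perfect M'' → Perfect M'
  | right {M' M M'' : DGModule R} (φ : Hom M' M) (ψ : Hom M M'') :
      ShortExact φ ψ → Perfect M' → Perfect M → Perfect M''
  | retract {M N : DGModule R} (i : Hom M N) (r : Hom N M) :
      (∀ x, r.f (i.f x) = x) → Perfect N → Perfect M

/-- The type of perfect DG modules. -/
abbrev PerfectModule (R : DGRing.{u}) : Type (u + 1) := {M : DGModule R // M.Perfect}

/-- The defining relations of `K₀(R)`: `[M] = [N]` for every quasi-isomorphism `M → N` and
`[M] = [M'] + [M'']` for every short exact sequence `0 → M' → M → M'' → 0` of perfect modules. -/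
def relations (R : DGRing.{u}) : Set (FreeAbelianGroup (PerfectModule R)) :=
  {x | (∃ (M N : PerfectModule R) (φ : DGModule.Hom M.1 N.1), φ.QuasiIso ∧
      x = FreeAbelianGroup.of M - FreeAbelianGroup.of N) ∨
    ∃ (M' M M'' : PerfectModule R) (φ : DGModule.Hom M'.1 M.1) (ψ : DGModule.Hom M.1 M''.1),
      DGModule.ShortExact φ ψ ∧
      x = FreeAbelianGroup.of M - (FreeAbelianGroup.of M' + FreeAbelianGroup.of M'')}

/-- The Grothendieck group `K₀(R)` of the perfect `R`-modules. -/
abbrev K0 (R : DGRing.{u}) : Type (u + 1) :=
  FreeAbelianGroup (PerfectModule R) ⧸ AddSubgroup.closure (relations R)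

/-- The class `[R] ∈ K₀(R)` of the free module of rank one. -/
def unitClass (R : DGRing.{u}) : K0 R :=
  QuotientAddGroup.mk (FreeAbelianGroup.of ⟨DGModule.self R, DGModule.Perfect.self⟩)

/-- A function `φ : R → B` induces a ring homomorphism from the homology ring `H_*(R)` (cycles
modulo boundaries) to the ring `B`. Only the values of `φ` on cycles matter. -/
structure InducesRingHomOnHomology (R : DGRing.{u}) {B : Type*} [Ring B] (φ : R.A → B) : Prop where
  map_one : φ 1 = 1
  map_add : ∀ a b, R.d a = 0 → R.d b = 0 → φ (a + b) = φ a + φ b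
  map_mul : ∀ a b, R.d a = 0 → R.d b = 0 → φ (a * b) = φ a * φ b
  map_boundary : ∀ a, φ (R.d a) = 0

end Pool.Agent.Helper75.DG
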