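import Mathlib
import Pool.Agent.Helper75.DGDefs

set_option autoImplicit false

open scoped TensorProduct

namespace Pool.Agent.Helper75.DG

universe u

variable {R : DGRing.{u}}

/-! ### Parity projections -/

section Parity

variable (M : DGModule R)

noncomputable instance : DirectSum.Decomposition M.gr := M.isInternal.chooseDecomposition

/-- The projection to the part of parity `i`. -/
noncomputable def par (i : ZMod 2) : M.M →+ M.M :=
  (((DirectSum.decomposeAddEquiv M.gr).symm : (DirectSum ℤ fun n => M.gr n) →+ M.M).comp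
    (DFinsupp.filterAddMonoidHom (fun n : ℤ => M.gr n) (fun n : ℤ => (n : ZMod 2) = i))).comp
    ((DirectSum.decomposeAddEquiv M.gr : M.M →+ DirectSum ℤ fun n => M.gr n))

lemma par_of_mem (i : ZMod 2) {n : ℤ} {x : M.M} (hx : x ∈ M.gr n) :
    par M i x = if (n : ZMod 2) = i then x else 0 := by
  classical
  have h1 : par M i x = (DirectSum.decompose M.gr).symm
      (DFinsupp.filter (fun n : ℤ => (n : ZMod 2) = i) (DirectSum.decompose M.gr x)) := rfl
  rw [h1, DirectSum.decompose_of_mem M.gr hx]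
  by_cases h : (n : ZMod 2) = i
  · rw [if_pos h]
    have h2 : DFinsupp.filter (fun n : ℤ => (n : ZMod 2) = i)
        (DirectSum.of (fun n => M.gr n) n ⟨x, hx⟩) = DirectSum.of (fun n => M.gr n) n ⟨x, hx⟩ :=
      DFinsupp.filter_single_pos _ _ h
    rw [h2, DirectSum.decompose_symm_of]
  · rw [if_neg h]
    have h2 : DFinsupp.filter (fun n : ℤ => (n : ZMod 2) = i)
        (DirectSum.of (fun n => M.gr n) n ⟨x, hx⟩) = 0 :=
      DFinsupp.filter_single_neg _ _ h
    rw [h2, DirectSum.decompose_symm_zero]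

lemma par_add_par (i : ZMod 2) (x : M.M) : par M i x + par M (i + 1) x = x := by
  induction x using DirectSum.Decomposition.inductionOn M.gr with
  | zero => simp
  | @homogeneous n m =>
    rw [par_of_mem M i m.2, par_of_mem M (i + 1) m.2]
    by_cases h : (n : ZMod 2) = i
    · rw [if_pos h, if_neg (by rw [h]; exact (by decide : ∀ i : ZMod 2, i ≠ i + 1) i), add_zero]
    · have h' : (n : ZMod 2) = i + 1 := by
        generalize (n : ZMod 2) = j at h
        revert i j
        decide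
      rw [if_neg h, if_pos h', zero_add]
  | add m m' hm hm' =>
    rw [map_add, map_add, add_add_add_comm, hm, hm']

lemma par_par (i : ZMod 2) (x : M.M) : par M i (par M i x) = par M i x := by
  induction x using DirectSum.Decomposition.inductionOn M.gr with
  | zero => simp
  | @homogeneous n m =>
    rw [par_of_mem M i m.2]
    by_cases h : (n : ZMod 2) = i
    · rw [if_pos h, par_of_mem M i m.2, if_pos h]
    · rw [if_neg h, map_zero]
  | add m m' hm hm' => rw [map_add, map_add, hm, hm']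

lemma par_d (i : ZMod 2) (x : M.M) : par M i (M.d x) = M.d (par M (i + 1) x) := by
  induction x using DirectSum.Decomposition.inductionOn M.gr with
  | zero => simp
  | @homogeneous n m =>
    rw [par_of_mem M (i + 1) m.2, par_of_mem M i (M.d_mem n m m.2)]
    have h0 : ((n - 1 : ℤ) : ZMod 2) = i ↔ (n : ZMod 2) = i + 1 := by
      rw [Int.cast_sub, Int.cast_one]
      generalize (n : ZMod 2) = j
      revert i j
      decide
    by_cases h : (n : ZMod 2) = i + 1
    · rw [if_pos h, if_pos (h0.2 h)]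
    · rw [if_neg h, if_neg (fun h' => h (h0.1 h')), map_zero]
  | add m m' hm hm' => rw [map_add, map_add, map_add, map_add, hm, hm']

lemma par_hom {M N : DGModule R} (φ : DGModule.Hom M N) (i : ZMod 2) (x : M.M) :
    φ.f (par M i x) = par N i (φ.f x) := by
  induction x using DirectSum.Decomposition.inductionOn M.gr with
  | zero => simp
  | @homogeneous n m =>
    rw [par_of_mem M i m.2, par_of_mem N i (φ.map_gr n m m.2)]
    by_cases h : (n : ZMod 2) = i
    · rw [if_pos h, if_pos h]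
    · rw [if_neg h, if_neg h, map_zero]
  | add m m' hm hm' => rw [map_add, map_add, map_add, map_add, hm, hm']

end Parity

/-! ### Cycles and boundaries of given parity -/

section Homology

variable (M : DGModule R)

/-- Cycles of parity `i`. -/
def Zc (i : ZMod 2) : AddSubgroup M.M where
  carrier := {x | M.d x = 0 ∧ par M i x = x}
  zero_mem' := ⟨map_zero _, map_zero _⟩
  add_mem' := by
    rintro a b ⟨h1, h2⟩ ⟨h3, h4⟩
    exact ⟨by rw [map_add, h1, h3, add_zero], by rw [map_add, h2, h4]⟩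
  neg_mem' := by
    rintro a ⟨h1, h2⟩
    exact ⟨by rw [map_neg, h1, neg_zero], by rw [map_neg, h2]⟩

/-- Boundaries of parity `i`. -/
def Bc (i : ZMod 2) : AddSubgroup M.M where
  carrier := {x | (∃ y, M.d y = x) ∧ par M i x = x}
  zero_mem' := ⟨⟨0, map_zero _⟩, map_zero _⟩
  add_mem' := by
    rintro a b ⟨⟨y, h1⟩, h2⟩ ⟨⟨z, h3⟩, h4⟩
    exact ⟨⟨y + z, by rw [map_add, h1, h3]⟩, by rw [map_add, h2, h4]⟩
  neg_mem' := by
    rintro a ⟨⟨y, h1⟩, h2⟩
    exact ⟨⟨-y, by rw [map_neg, h1]⟩, by rw [map_neg, h2]⟩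

/-- The order of the homology of parity `i` (with value `0` if it is infinite). -/
noncomputable def hc (i : ZMod 2) : ℕ := (Bc M i).relIndex (Zc M i)

variable {M}

lemma mem_Zc {i : ZMod 2} {x : M.M} : x ∈ Zc M i ↔ M.d x = 0 ∧ par M i x = x := Iff.rfl

lemma mem_Bc {i : ZMod 2} {x : M.M} : x ∈ Bc M i ↔ (∃ y, M.d y = x) ∧ par M i x = x := Iff.rfl

lemma Bc_le_Zc (i : ZMod 2) : Bc M i ≤ Zc M i := by
  rintro x ⟨⟨y, rfl⟩, h⟩
  exact ⟨M.d_d y, h⟩

lemma map_Zc {N : DGModule R} (φ : DGModule.Hom M N) {i : ZMod 2} {x : M.M} (hx : x ∈ Zc M i) :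
    φ.f x ∈ Zc N i :=
  ⟨by rw [← φ.map_d, hx.1, map_zero], by rw [← par_hom, hx.2]⟩

lemma map_Bc {N : DGModule R} (φ : DGModule.Hom M N) {i : ZMod 2} {x : M.M} (hx : x ∈ Bc M i) :
    φ.f x ∈ Bc N i := by
  obtain ⟨⟨y, rfl⟩, h⟩ := hx
  exact ⟨⟨φ.f y, (φ.map_d y).symm⟩, by rw [← par_hom, h]⟩

/-- A relative index only depends on the intersections. -/
lemma relIndex_congr {G : Type*} [AddGroup G] {H H' K : AddSubgroup G}
    (h : ∀ x ∈ K, x ∈ H ↔ x ∈ H') : H.relIndex K = H'.relIndex K := by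
  rw [← AddSubgroup.inf_relIndex_right H, ← AddSubgroup.inf_relIndex_right H']
  congr 1
  ext x
  simp only [AddSubgroup.mem_inf]
  constructor
  · rintro ⟨h1, h2⟩
    exact ⟨(h x h2).1 h1, h2⟩
  · rintro ⟨h1, h2⟩
    exact ⟨(h x h2).2 h1, h2⟩

theorem hc_of_quasiIso {N : DGModule R} (φ : DGModule.Hom M N) (hφ : φ.QuasiIso) (i : ZMod 2) :
    hc M i = hc N i := by
  have h1 : Zc N i = (Zc M i).map φ.f.toAddMonoidHom ⊔ Bc N i := by
    apply le_antisymm
    · rintro x ⟨hx1, hx2⟩
      obtain ⟨x0, hx0, z, hz⟩ := hφ.2 x hx1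
      have h2 : x = φ.f (par M i x0) + N.d (par N (i + 1) z) := by
        rw [← par_d, par_hom, ← map_add, ← hz, hx2]
      rw [h2]
      refine AddSubgroup.add_mem _ (AddSubgroup.mem_sup_left ?_) (AddSubgroup.mem_sup_right ?_)
      · refine ⟨par M i x0, ⟨?_, par_par M i x0⟩, rfl⟩
        have := par_d M (i + 1) x0
        rw [hx0, map_zero, add_assoc, show (1 : ZMod 2) + 1 = 0 from rfl, add_zero] at this
        exact this.symm
      · refine ⟨⟨_, rfl⟩, ?_⟩
        rw [← par_d, par_par]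
    · refine sup_le ?_ (Bc_le_Zc i)
      rintro _ ⟨x, hx, rfl⟩
      exact map_Zc φ hx
  unfold hc
  rw [h1, AddSubgroup.relIndex_sup_right, ← AddSubgroup.relIndex_comap]
  refine relIndex_congr fun x hx => ?_
  constructor
  · intro hB
    exact map_Bc φ hB
  · intro hB
    obtain ⟨⟨y, hy⟩, -⟩ := hB
    exact ⟨hφ.1 x hx.1 ⟨y, hy⟩, hx.2⟩

/-- The three factors for a short exact sequence. -/
theorem hc_of_shortExact {M' M'' : DGModule R} (φ : DGModule.Hom M' M) (ψ : DGModule.Hom M M'')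
    (h : DGModule.ShortExact φ ψ) : ∃ a b c : ZMod 2 → ℕ, ∀ i,
      hc M' i = c i * a i ∧ hc M i = a i * b i ∧ hc M'' (i + 1) = b (i + 1) * c i := by
  obtain ⟨hinj, hsurj, hex⟩ := h
  -- notation
  let f := φ.f.toAddMonoidHom
  let g := ψ.f.toAddMonoidHom
  have hgf : ∀ x, ψ.f (φ.f x) = 0 := fun x => (hex _).2 ⟨x, rfl⟩
  -- lift of an element of given parity
  have hlift : ∀ i (z : M''.M), par M'' i z = z → ∃ x : M.M, par M i x = x ∧ ψ.f x = z := by
    intro i z hz
    obtain ⟨x, hx⟩ := hsurj z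
    exact ⟨par M i x, par_par M i x, by rw [par_hom, hx, hz]⟩
  have hliftf : ∀ i (x : M.M), par M i x = x → ψ.f x = 0 →
      ∃ y : M'.M, par M' i y = y ∧ φ.f y = x := by
    intro i x hx hx0
    obtain ⟨y, hy⟩ := (hex x).1 hx0
    refine ⟨y, hinj ?_, hy⟩
    rw [par_hom, hy, hx]
  have hplus : ∀ i : ZMod 2, i + 1 + 1 = i := by decide
  -- subgroups
  let P : ZMod 2 → AddSubgroup M'.M := fun i => (Bc M i).comap f ⊓ Zc M' i
  let Q : ZMod 2 → AddSubgroup M.M := fun i => Bc M i ⊔ (Zc M' i).map f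
  let S : ZMod 2 → AddSubgroup M''.M := fun i => (Zc M i).map g ⊔ Bc M'' i
  refine ⟨fun i => (P i).relIndex (Zc M' i), fun i => (Q i).relIndex (Zc M i),
    fun i => (Bc M' i).relIndex (P i), fun i => ⟨?_, ?_, ?_⟩⟩
  · -- first
    refine (AddSubgroup.relIndex_mul_relIndex _ _ _ ?_ inf_le_right).symm
    intro x hx
    exact ⟨map_Bc φ hx, Bc_le_Zc i hx⟩
  · -- second
    have h1 : (P i).relIndex (Zc M' i) = (Bc M i).relIndex (Q i) := by
      change _ = (Bc M i).relIndex (Bc M i ⊔ (Zc M' i).map f)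
      rw [sup_comm, AddSubgroup.relIndex_sup_right, ← AddSubgroup.relIndex_comap]
      exact AddSubgroup.inf_relIndex_right _ _
    change _ = (P i).relIndex (Zc M' i) * (Q i).relIndex (Zc M i)
    rw [h1]
    refine (AddSubgroup.relIndex_mul_relIndex _ _ _ le_sup_left ?_).symm
    refine sup_le (Bc_le_Zc i) ?_
    rintro _ ⟨x, hx, rfl⟩
    exact map_Zc φ hx
  · -- third
    have h1 : (Q (i + 1)).relIndex (Zc M (i + 1)) = (Bc M'' (i + 1)).relIndex (S (i + 1)) := by
      change _ = (Bc M'' (i + 1)).relIndex ((Zc M (i + 1)).map g ⊔ Bc M'' (i + 1))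
      rw [AddSubgroup.relIndex_sup_right, ← AddSubgroup.relIndex_comap]
      refine relIndex_congr fun x hx => ?_
      constructor
      · intro hxQ
        obtain ⟨b, hb, _, ⟨y, hy, rfl⟩, rfl⟩ := AddSubgroup.mem_sup.1 hxQ
        change ψ.f (b + φ.f y) ∈ Bc M'' (i + 1)
        rw [map_add, hgf, add_zero]
        exact map_Bc ψ hb
      · rintro ⟨⟨y'', hy''⟩, -⟩
        -- `ψ x = d y''`, with `y'' = ψ y`
        obtain ⟨y, rfl⟩ := hsurj y''
        have hxe : ψ.f (x - M.d (par M (i + 1 + 1) y)) = 0 := by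
          rw [← par_d, map_sub, par_hom, ψ.map_d, hy'']
          change ψ.f x - par M'' (i + 1) (ψ.f x) = 0
          rw [← par_hom, hx.2, sub_self]
        have hxp : par M (i + 1) (x - M.d (par M (i + 1 + 1) y)) =
            x - M.d (par M (i + 1 + 1) y) := by
          rw [← par_d, map_sub, par_par, hx.2]
        obtain ⟨y', hy'p, hy'⟩ := hliftf (i + 1) _ hxp hxe
        have hxeq : x = M.d (par M (i + 1 + 1) y) + φ.f y' := by rw [hy']; abel
        rw [hxeq]
        refine AddSubgroup.add_mem _ (AddSubgroup.mem_sup_left ⟨⟨_, rfl⟩, ?_⟩)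
          (AddSubgroup.mem_sup_right ⟨y', ⟨hinj ?_, hy'p⟩, rfl⟩)
        · rw [← par_d, par_par]
        · rw [φ.map_d, hy', map_sub, hx.1, M.d_d, sub_zero, map_zero]
    have h2 : (Bc M' i).relIndex (P i) = (S (i + 1)).relIndex (Zc M'' (i + 1)) := by
      -- the group of `x ∈ M` of parity `i + 1` with `ψ (d x) = 0`
      let L : AddSubgroup M.M :=
        { carrier := {x | par M (i + 1) x = x ∧ ψ.f (M.d x) = 0}
          zero_mem' := ⟨map_zero _, by rw [map_zero, map_zero]⟩
          add_mem' := by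
            rintro a b ⟨h1, h2⟩ ⟨h3, h4⟩
            exact ⟨by rw [map_add, h1, h3], by rw [map_add, map_add, h2, h4, add_zero]⟩
          neg_mem' := by
            rintro a ⟨h1, h2⟩
            exact ⟨by rw [map_neg, h1], by rw [map_neg, map_neg, h2, neg_zero]⟩ }
      have hL : ∀ x, x ∈ L ↔ par M (i + 1) x = x ∧ ψ.f (M.d x) = 0 := fun x => Iff.rfl
      have hmapg : L.map g = Zc M'' (i + 1) := by
        apply le_antisymm
        · rintro _ ⟨x, hx, rfl⟩
          refine ⟨?_, ?_⟩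
          · change M''.d (ψ.f x) = 0
            rw [← ψ.map_d]
            exact hx.2
          · change par M'' (i + 1) (ψ.f x) = ψ.f x
            rw [← par_hom, hx.1]
        · rintro z ⟨hz1, hz2⟩
          obtain ⟨x, hx1, hx2⟩ := hlift (i + 1) z hz2
          exact ⟨x, ⟨hx1, by rw [ψ.map_d, hx2, hz1]⟩, hx2⟩
      have hmapd : L.map M.d = (P i).map f := by
        apply le_antisymm
        · rintro _ ⟨x, hx, rfl⟩
          have hp : par M i (M.d x) = M.d x := by rw [par_d, hx.1]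
          obtain ⟨y, hy1, hy2⟩ := hliftf i (M.d x) hp hx.2
          refine ⟨y, ⟨?_, ?_, hy1⟩, hy2⟩
          · change φ.f y ∈ Bc M i
            rw [hy2]
            exact ⟨⟨x, rfl⟩, hp⟩
          · apply hinj
            rw [φ.map_d, hy2, M.d_d, map_zero]
        · rintro _ ⟨y, ⟨⟨⟨x, hx⟩, hy2⟩, hy3⟩, rfl⟩
          have hx' : M.d x = φ.f y := hx
          refine ⟨par M (i + 1) x, ⟨par_par _ _ _, ?_⟩, ?_⟩
          · rw [← par_d, par_hom, hx', hgf, map_zero]
          · change M.d (par M (i + 1) x) = φ.f y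
            rw [← par_d, hx', ← par_hom, hy3.2]
      have e1 : (Bc M' i).relIndex (P i) = ((Bc M' i).map f).relIndex ((P i).map f) :=
        (AddSubgroup.relIndex_map_map_of_injective _ _ hinj).symm
      rw [e1, ← hmapd, ← hmapg, ← AddSubgroup.relIndex_comap, ← AddSubgroup.relIndex_comap]
      refine relIndex_congr fun x hx => ?_
      constructor
      · rintro ⟨b, ⟨⟨y, rfl⟩, hb2⟩, hb⟩
        -- `d x = φ (d y)`
        have hb' : M.d x = M.d (φ.f y) := by
          rw [← φ.map_d]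
          exact hb.symm
        have hb'' : M.d (x - φ.f (par M' (i + 1) y)) = 0 := by
          rw [par_hom, map_sub, ← par_d, ← hb', par_d, hx.1, sub_self]
        refine AddSubgroup.mem_sup_left ⟨x - φ.f (par M' (i + 1) y), ⟨hb'', ?_⟩, ?_⟩
        · rw [par_hom, map_sub, par_par, hx.1]
        · change ψ.f (x - φ.f (par M' (i + 1) y)) = ψ.f x
          rw [map_sub, hgf, sub_zero]
      · intro hxS
        obtain ⟨_, ⟨z, hz, rfl⟩, b, ⟨⟨y'', rfl⟩, hb2⟩, hzb⟩ := AddSubgroup.mem_sup.1 hxS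
        obtain ⟨y, rfl⟩ := hsurj y''
        have hzb' : ψ.f z + M''.d (ψ.f y) = ψ.f x := hzb
        have h0 : ψ.f (x - z - M.d y) = 0 := by
          rw [map_sub, map_sub, ψ.map_d, ← hzb']
          abel
        obtain ⟨w, hw⟩ := (hex _).1 h0
        refine ⟨M'.d (par M' (i + 1) w), ⟨⟨_, rfl⟩, ?_⟩, ?_⟩
        · rw [← par_d, par_par]
        · change φ.f (M'.d (par M' (i + 1) w)) = M.d x
          have hdw : M.d (x - z - M.d y) = M.d x := by
            rw [map_sub, map_sub, M.d_d, hz.1, sub_zero, sub_zero]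
          rw [← par_d, par_hom, φ.map_d, hw, hdw, par_d, hx.1]
    change _ = (Q (i + 1)).relIndex (Zc M (i + 1)) * (Bc M' i).relIndex (P i)
    rw [h1, h2]
    refine (AddSubgroup.relIndex_mul_relIndex _ _ _ le_sup_right ?_).symm
    refine sup_le ?_ (Bc_le_Zc _)
    rintro _ ⟨x, hx, rfl⟩
    exact map_Zc ψ hx

theorem hc_retract {N : DGModule R} (i : DGModule.Hom M N) (r : DGModule.Hom N M)
    (h : ∀ x, r.f (i.f x) = x) (j : ZMod 2) (hN : hc N j ≠ 0) : hc M j ≠ 0 := by
  have h1 : hc M j = (Bc N j).relIndex ((Zc M j).map i.f.toAddMonoidHom) := by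
    unfold hc
    rw [← AddSubgroup.relIndex_comap]
    refine relIndex_congr fun x hx => ?_
    constructor
    · intro hB
      exact map_Bc i hB
    · intro hB
      have := map_Bc r hB
      change r.f (i.f x) ∈ Bc M j at this
      rwa [h] at this
  rw [h1]
  intro h0
  refine hN (AddSubgroup.relIndex_eq_zero_of_le_right ?_ h0)
  rintro _ ⟨x, hx, rfl⟩
  exact map_Zc i hx

end Homology

/-! ### The Euler characteristic on `K₀` -/

section Euler

/-- Finite homology. -/
theorem hc_ne_zero_of_perfect (hR : ∀ i, hc (DGModule.self R) i ≠ 0) (M : DGModule R)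
    (hM : M.Perfect) : ∀ i, hc M i ≠ 0 := by
  have hplus : ∀ i : ZMod 2, i + 1 + 1 = i := by decide
  induction hM with
  | self => exact hR
  | of_source φ hφ _ ih => exact fun i => by rw [← hc_of_quasiIso φ hφ]; exact ih i
  | of_target φ hφ _ ih => exact fun i => by rw [hc_of_quasiIso φ hφ]; exact ih i
  | middle φ ψ h _ _ ih1 ih2 =>
    obtain ⟨a, b, c, habc⟩ := hc_of_shortExact φ ψ h
    intro i
    rw [(habc i).2.1]
    have h1 := ih1 i
    rw [(habc i).1] at h1
    have h2 := ih2 i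
    rw [← hplus i, (habc (i + 1)).2.2, hplus] at h2
    exact mul_ne_zero (right_ne_zero_of_mul h1) (left_ne_zero_of_mul h2)
  | left φ ψ h _ _ ih1 ih2 =>
    obtain ⟨a, b, c, habc⟩ := hc_of_shortExact φ ψ h
    intro i
    rw [(habc i).1]
    have h1 := ih1 i
    rw [(habc i).2.1] at h1
    have h2 := ih2 (i + 1)
    rw [(habc i).2.2] at h2
    exact mul_ne_zero (right_ne_zero_of_mul h2) (left_ne_zero_of_mul h1)
  | right φ ψ h _ _ ih1 ih2 =>
    obtain ⟨a, b, c, habc⟩ := hc_of_shortExact φ ψ h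
    intro i
    rw [← hplus i, (habc (i + 1)).2.2, hplus]
    have h1 := ih1 (i + 1)
    rw [(habc (i + 1)).1] at h1
    have h2 := ih2 i
    rw [(habc i).2.1] at h2
    exact mul_ne_zero (right_ne_zero_of_mul h2) (left_ne_zero_of_mul h1)
  | retract i r h _ ih => exact fun j => hc_retract i r h j (ih j)

/-- The (logarithmic) Euler characteristic. -/
noncomputable def chi (M : DGModule R) : ℝ := Real.log (hc M 0) - Real.log (hc M 1)

theorem chi_of_quasiIso {M N : DGModule R} (φ : DGModule.Hom M N) (hφ : φ.QuasiIso) :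
    chi M = chi N := by
  unfold chi
  rw [hc_of_quasiIso φ hφ, hc_of_quasiIso φ hφ]

theorem chi_of_shortExact {M' M M'' : DGModule R} (φ : DGModule.Hom M' M)
    (ψ : DGModule.Hom M M'') (h : DGModule.ShortExact φ ψ) (h' : ∀ i, hc M' i ≠ 0)
    (h0 : ∀ i, hc M i ≠ 0) (h'' : ∀ i, hc M'' i ≠ 0) : chi M = chi M' + chi M'' := by
  obtain ⟨a, b, c, habc⟩ := hc_of_shortExact φ ψ h
  have e1 := (habc 0).1
  have e2 := (habc 0).2.1
  have e3 := (habc 0).2.2
  have e4 := (habc 1).1
  have e5 := (habc 1).2.1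
  have e6 := (habc 1).2.2
  rw [show (0 : ZMod 2) + 1 = 1 from rfl] at e3
  rw [show (1 : ZMod 2) + 1 = 0 from rfl] at e6
  have n1 := h' 0
  have n2 := h0 0
  have n3 := h'' 1
  have n4 := h' 1
  have n5 := h0 1
  have n6 := h'' 0
  unfold chi
  rw [e1] at n1 ⊢
  rw [e2] at n2 ⊢
  rw [e3] at n3 ⊢
  rw [e4] at n4 ⊢
  rw [e5] at n5 ⊢
  rw [e6] at n6 ⊢
  have a0 : ((a 0 : ℕ) : ℝ) ≠ 0 := Nat.cast_ne_zero.2 (right_ne_zero_of_mul n1)
  have c0 : ((c 0 : ℕ) : ℝ) ≠ 0 := Nat.cast_ne_zero.2 (left_ne_zero_of_mul n1)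
  have b0 : ((b 0 : ℕ) : ℝ) ≠ 0 := Nat.cast_ne_zero.2 (right_ne_zero_of_mul n2)
  have b1 : ((b 1 : ℕ) : ℝ) ≠ 0 := Nat.cast_ne_zero.2 (left_ne_zero_of_mul n3)
  have a1 : ((a 1 : ℕ) : ℝ) ≠ 0 := Nat.cast_ne_zero.2 (right_ne_zero_of_mul n4)
  have c1 : ((c 1 : ℕ) : ℝ) ≠ 0 := Nat.cast_ne_zero.2 (left_ne_zero_of_mul n4)
  push_cast
  rw [Real.log_mul a0 b0, Real.log_mul a1 b1, Real.log_mul c0 a0, Real.log_mul c1 a1,
    Real.log_mul b0 c1, Real.log_mul b1 c0]
  ring

/-- The Euler characteristic as a homomorphism on `K₀`. -/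
noncomputable def chiK (hR : ∀ i, hc (DGModule.self R) i ≠ 0) : K0 R →+ ℝ :=
  QuotientAddGroup.lift (AddSubgroup.closure (relations R)) (FreeAbelianGroup.lift fun M : PerfectModule R => chi M.1) (by
    rw [AddSubgroup.closure_le]
    rintro x (⟨M, N, φ, hφ, rfl⟩ | ⟨M', M, M'', φ, ψ, h, rfl⟩)
    · change FreeAbelianGroup.lift (fun M : PerfectModule R => chi M.1) _ = 0
      rw [map_sub, FreeAbelianGroup.lift_apply_of, FreeAbelianGroup.lift_apply_of,
        chi_of_quasiIso φ hφ, sub_self]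
    · change FreeAbelianGroup.lift (fun M : PerfectModule R => chi M.1) _ = 0
      rw [map_sub, map_add, FreeAbelianGroup.lift_apply_of, FreeAbelianGroup.lift_apply_of,
        FreeAbelianGroup.lift_apply_of,
        chi_of_shortExact φ ψ h (hc_ne_zero_of_perfect hR _ M'.2)
          (hc_ne_zero_of_perfect hR _ M.2) (hc_ne_zero_of_perfect hR _ M''.2), sub_self])

lemma chiK_unit (hR : ∀ i, hc (DGModule.self R) i ≠ 0) :
    chiK hR (unitClass R) = chi (DGModule.self R) := by
  change FreeAbelianGroup.lift (fun M : PerfectModule R => chi M.1) (FreeAbelianGroup.of _) = _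
  rw [FreeAbelianGroup.lift_apply_of]

theorem unit_ne_zero (hR : ∀ i, hc (DGModule.self R) i ≠ 0) (h : chi (DGModule.self R) ≠ 0) :
    (unitClass R ⊗ₜ[ℤ] (1 : ℚ) : K0 R ⊗[ℤ] ℚ) ≠ 0 := by
  intro h0
  let F : K0 R ⊗[ℤ] ℚ →ₗ[ℤ] ℝ := TensorProduct.lift
    { toFun := fun x =>
        { toFun := fun q => (q : ℝ) * chiK hR x
          map_add' := fun q q' => by push_cast; ring
          map_smul' := fun n q => by simp [mul_assoc] }
      map_add' := fun x y => by
        ext
        simp [mul_add]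
      map_smul' := fun n x => by
        ext
        simp [mul_left_comm] }
  have h1 : F (unitClass R ⊗ₜ[ℤ] (1 : ℚ)) = 0 := by rw [h0, map_zero]
  have h2 : F (unitClass R ⊗ₜ[ℤ] (1 : ℚ)) = ((1 : ℚ) : ℝ) * chiK hR (unitClass R) := rfl
  rw [h2, chiK_unit] at h1
  simp at h1
  exact h h1

end Euler

end Pool.Agent.Helper75.DG
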