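import Mathlib
import Pool.Agent.Helper75.DGEuler

set_option autoImplicit false

open scoped TensorProduct

namespace Pool.Agent.Helper75.DG

/-! ### Graded matrix rings -/

section Matrix

variable {ι : Type} [Fintype ι] [DecidableEq ι] (k : Type) [Ring k] (p : ι → ℤ)

/-- Matrices which are homogeneous of degree `n`: the `(i, j)` entry has degree `p i - p j`. -/
def matGr (n : ℤ) : AddSubgroup (Matrix ι ι k) where
  carrier := {X | ∀ i j, p i - p j ≠ n → X i j = 0}
  zero_mem' := fun _ _ _ => rfl
  add_mem' {X Y} hX hY i j h := by
    rw [Matrix.add_apply, hX i j h, hY i j h, add_zero]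
  neg_mem' {X} hX i j h := by
    rw [Matrix.neg_apply, hX i j h, neg_zero]

variable {k}

omit [Fintype ι] in
lemma single_mem_matGr (i j : ι) (c : k) : Matrix.single i j c ∈ matGr k p (p i - p j) := by
  intro a b h
  rw [Matrix.single_apply]
  refine if_neg ?_
  rintro ⟨rfl, rfl⟩
  exact h rfl

/-- The decomposition map. -/
def matDec : Matrix ι ι k →+ DirectSum ℤ fun n => matGr k p n where
  toFun X := ∑ i, ∑ j, DirectSum.of (fun n => matGr k p n) (p i - p j)
    ⟨Matrix.single i j (X i j), single_mem_matGr p i j _⟩
  map_zero' := by
    refine Finset.sum_eq_zero fun i _ => Finset.sum_eq_zero fun j _ => ?_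
    have : (⟨Matrix.single i j ((0 : Matrix ι ι k) i j), single_mem_matGr p i j _⟩ :
        matGr k p (p i - p j)) = 0 := by
      apply Subtype.ext
      simp
    rw [this, map_zero]
  map_add' X Y := by
    simp only [← Finset.sum_add_distrib]
    refine Finset.sum_congr rfl fun i _ => Finset.sum_congr rfl fun j _ => ?_
    rw [← map_add]
    congr 1
    apply Subtype.ext
    simp [Matrix.single_add]

lemma matDec_apply (X : Matrix ι ι k) :
    matDec p X = ∑ i, ∑ j, DirectSum.of (fun n => matGr k p n) (p i - p j)
      ⟨Matrix.single i j (X i j), single_mem_matGr p i j _⟩ := rfl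

/-- The decomposition of the matrix ring. -/
noncomputable instance matDecomposition : DirectSum.Decomposition (matGr k p) :=
  DirectSum.Decomposition.ofAddHom _ (matDec p)
    (by
      ext1 X
      rw [AddMonoidHom.comp_apply, matDec_apply, map_sum]
      simp only [map_sum, DirectSum.coeAddMonoidHom_of, AddMonoidHom.id_apply]
      exact (Matrix.matrix_eq_sum_single X).symm)
    (by
      ext n X : 2
      obtain ⟨X, hX⟩ := X
      simp only [AddMonoidHom.comp_apply, DirectSum.coeAddMonoidHom_of, AddMonoidHom.id_apply]
      rw [matDec_apply]
      have h1 : ∀ i j, DirectSum.of (fun n => matGr k p n) (p i - p j)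
          ⟨Matrix.single i j (X i j), single_mem_matGr p i j _⟩ =
          DirectSum.of (fun n => matGr k p n) n
            ⟨Matrix.single i j (X i j), fun a b h => by
              rw [Matrix.single_apply]
              by_cases hab : i = a ∧ j = b
              · rw [if_pos hab, hab.1, hab.2]
                exact hX a b h
              · rw [if_neg hab]⟩ := by
        intro i j
        by_cases h : p i - p j = n
        · subst h
          rfl
        · have h0 : X i j = 0 := hX i j h
          have e1 : (⟨Matrix.single i j (X i j), single_mem_matGr p i j _⟩ :
              matGr k p (p i - p j)) = 0 := by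
            apply Subtype.ext
            simp [h0]
          rw [e1, map_zero]
          symm
          convert map_zero (DirectSum.of (fun n => matGr k p n) n) using 2
          apply Subtype.ext
          simp [h0]
      simp only [h1, ← map_sum]
      congr 1
      apply Subtype.ext
      rw [AddSubgroup.val_finsetSum]
      simp only [AddSubgroup.val_finsetSum]
      exact (Matrix.matrix_eq_sum_single X).symm)

variable (k)

/-- The graded matrix ring as a DG ring with zero differential. -/
noncomputable def matDG : DGRing.{0} where
  A := Matrix ι ι k
  gr := matGr k p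
  isInternal := DirectSum.Decomposition.isInternal _
  one_mem := by
    intro i j h
    refine Matrix.one_apply_ne ?_
    rintro rfl
    exact h (sub_self _)
  mul_mem := by
    intro m n X Y hX hY i j h
    rw [Matrix.mul_apply]
    refine Finset.sum_eq_zero fun l _ => ?_
    by_cases h1 : p i - p l = m
    · have h2 : p l - p j ≠ n := by
        intro h2
        apply h
        rw [← h1, ← h2]
        ring
      rw [hY l j h2, mul_zero]
    · rw [hX i l h1, zero_mul]
  d := 0
  d_mem n a _ := AddSubgroup.zero_mem _
  d_d _ := rfl
  leibniz_even n a b _ _ := by simp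
  leibniz_odd n a b _ _ := by simp

end Matrix

end Pool.Agent.Helper75.DG
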