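import Mathlib

/-!
# A regular well-ordered index set with a monotone cofinal map from `ℕ → ℕ`

We build (in ZFC) a well-ordered type `I` of order type the initial ordinal `𝔟` (the least size of a
family of functions that is unbounded modulo finite sets), show its regularity, and give a
monotone cofinal map from `ℕ → ℕ` with the pointwise order.
-/

open Set Filter Cardinal

namespace Pool.Agent.Helper75.Ladder

/-- Eventual domination. -/
def EvLE (f g : ℕ → ℕ) : Prop := ∀ᶠ n in atTop, f n ≤ g n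

lemma EvLE.trans {f g h : ℕ → ℕ} (h₁ : EvLE f g) (h₂ : EvLE g h) : EvLE f h := by
  filter_upwards [h₁, h₂] with n a b using a.trans b

lemma EvLE.of_le {f g : ℕ → ℕ} (h : f ≤ g) : EvLE f g :=
  Eventually.of_forall h

/-- A family of functions is unbounded modulo finite sets. -/
def Unb (B : Set (ℕ → ℕ)) : Prop := ∀ g : ℕ → ℕ, ∃ f ∈ B, ¬ EvLE f g

lemma unb_univ : Unb univ := by
  intro g
  refine ⟨fun n => g n + 1, mem_univ _, ?_⟩
  intro h
  obtain ⟨n, hn⟩ := h.exists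
  simp at hn

lemma not_unb_of_countable {B : Set (ℕ → ℕ)} (hB : B.Countable) : ¬ Unb B := by
  intro hU
  rcases B.eq_empty_or_nonempty with rfl | hne
  · obtain ⟨f, hf, -⟩ := hU 0
    exact hf
  obtain ⟨e, rfl⟩ := hB.exists_eq_range hne
  obtain ⟨f, ⟨k, rfl⟩, hf⟩ := hU (fun n => ∑ k ∈ Finset.range (n + 1), e k n)
  apply hf
  filter_upwards [eventually_ge_atTop k] with n hn
  exact Finset.single_le_sum (f := fun k => e k n) (fun _ _ => Nat.zero_le _)
    (Finset.mem_range.2 (by omega))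

/-- the bounding number -/
noncomputable def bnum : Cardinal.{0} := sInf {c | ∃ B : Set (ℕ → ℕ), Unb B ∧ #B = c}

lemma exists_bnum : ∃ B : Set (ℕ → ℕ), Unb B ∧ #B = bnum := by
  have : bnum ∈ {c | ∃ B : Set (ℕ → ℕ), Unb B ∧ #B = c} :=
    csInf_mem ⟨#(univ : Set (ℕ → ℕ)), univ, unb_univ, rfl⟩
  exact this

lemma not_unb_of_lt {B : Set (ℕ → ℕ)} (hB : #B < bnum) : ¬ Unb B := by
  intro h
  exact absurd (csInf_le' (s := {c | ∃ B : Set (ℕ → ℕ), Unb B ∧ #B = c}) ⟨B, h, rfl⟩)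
    (not_le.2 hB)

lemma exists_bound_of_lt {B : Set (ℕ → ℕ)} (hB : #B < bnum) : ∃ g, ∀ f ∈ B, EvLE f g := by
  have := not_unb_of_lt hB
  unfold Unb at this
  push Not at this
  exact this

lemma aleph0_lt_bnum : ℵ₀ < bnum := by
  obtain ⟨B, hB, hc⟩ := exists_bnum
  by_contra h
  rw [not_lt, ← hc] at h
  exact not_unb_of_countable (Cardinal.le_aleph0_iff_set_countable.1 h) hB

/-- A well-ordered index type as used in the construction. -/
structure GoodIndex (I : Type) [LinearOrder I] : Prop where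
  wf : WellFoundedLT I
  nonempty : Nonempty I
  small : ∀ i : I, #(Iio i) < #I
  reg : ∀ T : Set I, #T < #I → ∃ i, ∀ t ∈ T, t < i
  aleph0_lt : ℵ₀ < #I

theorem exists_goodIndex : ∃ (I : Type) (_ : LinearOrder I), GoodIndex I ∧
    ∃ ρ : (ℕ → ℕ) → I, Monotone ρ ∧ ∀ i, ∃ α, i ≤ ρ α := by
  obtain ⟨B, hB, hc⟩ := exists_bnum
  have hcard : #(bnum.ord.ToType) = #B := by rw [hc, mk_ord_toType]
  obtain ⟨e⟩ := Cardinal.eq.1 hcard
  have hI : #(bnum.ord.ToType) = bnum := mk_ord_toType _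
  have hsmall : ∀ i : bnum.ord.ToType, #(Iio i) < bnum := fun i => by
    simpa using mk_Iio_lt i
  have hsmall' : ∀ i : bnum.ord.ToType, #(Iic i) < bnum := fun i => by
    have h1 : Iic i = insert i (Iio i) := by
      ext x; simp [le_iff_eq_or_lt]
    rw [h1]
    refine (mk_insert_le).trans_lt ?_
    exact add_lt_of_lt aleph0_lt_bnum.le (hsmall i) (one_lt_aleph0.trans aleph0_lt_bnum)
  have hne : Nonempty (bnum.ord.ToType) := by
    rw [← mk_ne_zero_iff, hI]
    exact (aleph0_pos.trans aleph0_lt_bnum).ne'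
  have hbd : ∀ T : Set (bnum.ord.ToType), #T < bnum →
      ∃ g, ∀ i ∈ T, EvLE (e i : ℕ → ℕ) g := by
    intro T hT
    obtain ⟨g, hg⟩ := exists_bound_of_lt (B := (fun i => (e i : ℕ → ℕ)) '' T)
      (mk_image_le.trans_lt hT)
    exact ⟨g, fun i hi => hg _ ⟨i, hi, rfl⟩⟩
  have hunb : ∀ g : ℕ → ℕ, ∃ i, ¬ EvLE (e i : ℕ → ℕ) g := by
    intro g
    obtain ⟨f, hf, hfg⟩ := hB g
    refine ⟨e.symm ⟨f, hf⟩, ?_⟩
    simpa using hfg
  refine ⟨bnum.ord.ToType, inferInstance, ⟨inferInstance, hne, ?_, ?_, ?_⟩, ?_⟩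
  · rw [hI]; exact hsmall
  · rw [hI]
    intro T hT
    by_contra hcon
    push Not at hcon
    have h2 : ∀ t : T, ∃ g, ∀ i ∈ Iic (t : bnum.ord.ToType), EvLE (e i : ℕ → ℕ) g :=
      fun t => hbd _ (hsmall' _)
    choose g hg using h2
    obtain ⟨G, hG⟩ := exists_bound_of_lt (B := range g) (mk_range_le.trans_lt hT)
    obtain ⟨i, hi⟩ := hunb G
    obtain ⟨t, ht, hit⟩ := hcon i
    exact hi ((hg ⟨t, ht⟩ i hit).trans (hG _ ⟨⟨t, ht⟩, rfl⟩))
  · rw [hI]; exact aleph0_lt_bnum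
  · have wf : WellFounded ((· < ·) : bnum.ord.ToType → bnum.ord.ToType → Prop) := wellFounded_lt
    refine ⟨fun α => wf.min {i | ¬ EvLE (e i : ℕ → ℕ) α} (hunb α), ?_, ?_⟩
    · intro α β hαβ
      refine WellFounded.min_le _ ?_
      intro h
      exact wf.min_mem {i | ¬ EvLE (e i : ℕ → ℕ) β} (hunb β) (h.trans (EvLE.of_le hαβ))
    · intro i
      obtain ⟨α, hα⟩ := hbd (Iio i) (hsmall i)
      refine ⟨α, ?_⟩
      by_contra hlt
      rw [not_le] at hlt
      exact wf.min_mem {i | ¬ EvLE (e i : ℕ → ℕ) α} (hunb α) (hα _ hlt)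

end Pool.Agent.Helper75.Ladder
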