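import Mathlib
import Pool.Agent.Helper75.LadderIndex

/-!
# The combinatorial core: vectors generated by points and ladders
-/

open Set Filter Cardinal

namespace Pool.Agent.Helper75.Ladder

variable {I : Type} [LinearOrder I]

/-- `η` is a strictly increasing sequence cofinal in `l`. -/
def IsLadder (η : ℕ → I) (l : I) : Prop :=
  StrictMono η ∧ (∀ n, η n < l) ∧ ∀ i < l, ∃ n, i ≤ η n

open Classical in
/-- The indicator of a chosen ladder for `l`, if there is one, and `0` otherwise. -/
noncomputable def lad (l : I) : I → ZMod 2 :=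
  if h : ∃ η : ℕ → I, IsLadder η l then indicator (range h.choose) 1 else 0

open Classical in
/-- the generators -/
noncomputable def gen : I ⊕ I → (I → ZMod 2) :=
  Sum.elim (fun i => Pi.single i 1) lad

/-- the index of a generator -/
def idx : I ⊕ I → I := Sum.elim id id

/-- the span of the generators of index `< d` -/
noncomputable def Gs (d : I) : Submodule (ZMod 2) (I → ZMod 2) :=
  Submodule.span (ZMod 2) (gen '' {x | idx x < d})

variable (I) in
/-- the whole group -/
noncomputable def Gt : Submodule (ZMod 2) (I → ZMod 2) :=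
  Submodule.span (ZMod 2) (range (gen : I ⊕ I → _))

open Classical in
/-- Truncation below `d`. -/
noncomputable def tr (d : I) : (I → ZMod 2) →ₗ[ZMod 2] (I → ZMod 2) where
  toFun f := fun i => if i < d then f i else 0
  map_add' f g := by
    funext i; by_cases h : i < d <;> simp [h]
  map_smul' c f := by
    funext i; by_cases h : i < d <;> simp [h]

open Classical in
lemma tr_apply (d : I) (f : I → ZMod 2) (i : I) : tr d f i = if i < d then f i else 0 := rfl

lemma tr_eq_iff {d : I} {f g : I → ZMod 2} : tr d f = tr d g ↔ ∀ i < d, f i = g i := by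
  constructor
  · intro h i hi
    have := congrFun h i
    simpa [tr_apply, hi] using this
  · intro h
    funext i
    by_cases hi : i < d
    · simp [tr_apply, hi, h i hi]
    · simp [tr_apply, hi]

lemma tr_tr {d e : I} (h : d ≤ e) (f : I → ZMod 2) : tr d (tr e f) = tr d f := by
  rw [tr_eq_iff]
  intro i hi
  simp [tr_apply, hi.trans_le h]

lemma tr_eq_mono {d e : I} (h : d ≤ e) {f g : I → ZMod 2} (hfg : tr e f = tr e g) :
    tr d f = tr d g := by
  rw [← tr_tr h f, hfg, tr_tr h]

lemma lad_support {l i : I} (h : lad l i ≠ 0) : i < l := by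
  classical
  unfold lad at h
  split_ifs at h with hl
  · by_cases hi : i ∈ range hl.choose
    · obtain ⟨n, rfl⟩ := hi
      exact hl.choose_spec.2.1 n
    · simp [hi] at h
  · simp at h

lemma lad_finite {l d : I} (hd : d < l) : {i | i < d ∧ lad l i ≠ 0}.Finite := by
  classical
  by_cases hl : ∃ η : ℕ → I, IsLadder η l
  · obtain ⟨n₀, hn₀⟩ := hl.choose_spec.2.2 d hd
    refine ((Set.finite_lt_nat n₀).image hl.choose).subset ?_
    rintro i ⟨hi, hi'⟩
    have : i ∈ range hl.choose := by
      by_contra hcon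
      apply hi'
      unfold lad
      rw [dif_pos hl]
      simp [hcon]
    obtain ⟨n, rfl⟩ := this
    refine ⟨n, ?_, rfl⟩
    have := hi.trans_le hn₀
    exact (hl.choose_spec.1.lt_iff_lt).1 this
  · refine Set.finite_empty.subset ?_
    rintro i ⟨hi, hi'⟩
    apply hi'
    unfold lad
    rw [dif_neg hl]
    rfl

lemma lad_cofinal {l : I} (hl : ∃ η : ℕ → I, IsLadder η l) {i : I} (hi : i < l) :
    ∃ j, i ≤ j ∧ j < l ∧ lad l j ≠ 0 := by
  classical
  obtain ⟨n, hn⟩ := hl.choose_spec.2.2 i hi
  refine ⟨hl.choose n, hn, hl.choose_spec.2.1 n, ?_⟩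
  unfold lad
  rw [dif_pos hl]
  simp

lemma Gs_mono {d e : I} (h : d ≤ e) : Gs d ≤ (Gs e : Submodule (ZMod 2) (I → ZMod 2)) := by
  apply Submodule.span_mono
  apply image_mono
  intro x hx
  exact lt_of_lt_of_le hx h

lemma Gs_le_Gt (d : I) : Gs d ≤ Gt I := by
  apply Submodule.span_mono
  exact image_subset_range _ _

lemma gen_mem_Gs {d : I} {x : I ⊕ I} (h : idx x < d) : gen x ∈ Gs d :=
  Submodule.subset_span ⟨x, h, rfl⟩

lemma Gs_support {d : I} {g : I → ZMod 2} (hg : g ∈ Gs d) {i : I} (hi : g i ≠ 0) : i < d := by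
  classical
  have key : Gs d ≤ LinearMap.ker ((LinearMap.id : (I → ZMod 2) →ₗ[ZMod 2] (I → ZMod 2)) - tr d) := by
    unfold Gs
    rw [Submodule.span_le]
    rintro _ ⟨x, hx, rfl⟩
    simp only [SetLike.mem_coe, LinearMap.mem_ker, LinearMap.sub_apply, LinearMap.id_apply]
    rw [sub_eq_zero]
    funext i
    rw [tr_apply]
    split_ifs with hid
    · rfl
    · by_contra hne
      apply hid
      rcases x with j | l
      · have : i = j := by
          by_contra hij
          apply hne
          simp [gen, hij]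
        rw [this]; exact hx
      · exact (lad_support hne).trans hx
  have h1 := key hg
  simp only [LinearMap.mem_ker, LinearMap.sub_apply, LinearMap.id_apply] at h1
  rw [sub_eq_zero] at h1
  by_contra hcon
  apply hi
  rw [h1, tr_apply, if_neg hcon]

/-- finitely supported vectors supported below `d` -/
lemma finite_mem_Gs {d : I} {f : I → ZMod 2} (hf : {i | f i ≠ 0}.Finite)
    (hd : ∀ i, f i ≠ 0 → i < d) : f ∈ Gs d := by
  classical
  have : f = ∑ i ∈ hf.toFinset, f i • gen (Sum.inl i) := by
    funext j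
    rw [Finset.sum_apply]
    simp only [gen, Sum.elim_inl, Pi.smul_apply, smul_eq_mul]
    by_cases hj : f j = 0
    · rw [hj]
      symm
      apply Finset.sum_eq_zero
      intro i hi
      have : f i ≠ 0 := by simpa using hi
      have hij : j ≠ i := by rintro rfl; exact this hj
      simp [Pi.single_eq_of_ne hij]
    · rw [Finset.sum_eq_single j]
      · simp
      · intro i _ hij
        simp [Pi.single_eq_of_ne (Ne.symm hij)]
      · intro h
        exact absurd (by simpa using hj) h
  rw [this]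
  apply Submodule.sum_mem
  intro i hi
  apply Submodule.smul_mem
  apply gen_mem_Gs
  exact hd i (by simpa using hi)

/-- Truncating a generator other than `lad d` below `d` gives an element of `Gs d`. -/
lemma tr_gen_mem {d : I} {x : I ⊕ I} (hx : x ≠ Sum.inr d) : tr d (gen x) ∈ Gs d := by
  classical
  rcases x with j | l
  · apply finite_mem_Gs
    · refine (Set.finite_singleton j).subset ?_
      intro i hi
      by_contra hij
      apply hi
      rw [tr_apply]
      split_ifs
      · simp only [mem_singleton_iff] at hij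
        simp [gen, hij]
      · rfl
    · intro i hi
      by_contra hcon
      apply hi
      rw [tr_apply, if_neg hcon]
  · rcases lt_trichotomy l d with h | h | h
    · have : tr d (gen (Sum.inr l)) = gen (Sum.inr l) := by
        funext i
        rw [tr_apply]
        split_ifs with hid
        · rfl
        · by_contra hne
          exact hid ((lad_support (l := l) (i := i) (Ne.symm hne)).trans h)
      rw [this]
      exact gen_mem_Gs (x := Sum.inr l) h
    · exact absurd (by rw [h]) hx
    · apply finite_mem_Gs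
      · refine (lad_finite h).subset ?_
        intro i hi
        by_cases hid : i < d
        · refine ⟨hid, ?_⟩
          have hi' : tr d (gen (Sum.inr l)) i ≠ 0 := hi
          rwa [tr_apply, if_pos hid] at hi'
        · exfalso
          apply hi
          rw [tr_apply, if_neg hid]
      · intro i hi
        by_contra hcon
        apply hi
        rw [tr_apply, if_neg hcon]

/-- Every element of the group has only finitely many exceptional levels. -/
lemma exists_finite_bad {a : I → ZMod 2} (ha : a ∈ Gt I) :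
    ∃ F : Set I, F.Finite ∧ ∀ d ∉ F, tr d a ∈ Gs d := by
  classical
  unfold Gt at ha
  induction ha using Submodule.span_induction with
  | mem x hx =>
    obtain ⟨y, rfl⟩ := hx
    rcases y with j | l
    · exact ⟨∅, Set.finite_empty, fun d _ => tr_gen_mem (by simp)⟩
    · refine ⟨{l}, Set.finite_singleton l, fun d hd => tr_gen_mem ?_⟩
      intro h
      apply hd
      rw [Sum.inr.injEq] at h
      rw [h]; rfl
  | zero => exact ⟨∅, Set.finite_empty, fun d _ => by simp⟩
  | add x y _ _ hx hy =>
    obtain ⟨F, hF, hF'⟩ := hx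
    obtain ⟨F₁, hF₁, hF₁'⟩ := hy
    refine ⟨F ∪ F₁, hF.union hF₁, fun d hd => ?_⟩
    rw [mem_union, not_or] at hd
    rw [map_add]
    exact Submodule.add_mem _ (hF' d hd.1) (hF₁' d hd.2)
  | smul c x _ hx =>
    obtain ⟨F, hF, hF'⟩ := hx
    refine ⟨F, hF, fun d hd => ?_⟩
    rw [map_smul]
    exact Submodule.smul_mem _ _ (hF' d hd)

/-- continuity of the filtration at a point with a ladder -/
lemma exists_mem_Gs_of_ladder {δ : I} {d : ℕ → I} (hd : IsLadder d δ) {g : I → ZMod 2}
    (hg : g ∈ Gs δ) : ∃ n, g ∈ Gs (d n) := by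
  unfold Gs at hg
  induction hg using Submodule.span_induction with
  | mem x hx =>
    obtain ⟨y, hy, rfl⟩ := hx
    obtain ⟨n, hn⟩ := hd.2.2 _ hy
    exact ⟨n + 1, gen_mem_Gs (hn.trans_lt (hd.1 (Nat.lt_succ_self n)))⟩
  | zero => exact ⟨0, Submodule.zero_mem _⟩
  | add x y _ _ hx hy =>
    obtain ⟨n, hn⟩ := hx
    obtain ⟨m, hm⟩ := hy
    exact ⟨max n m, Submodule.add_mem _ (Gs_mono (hd.1.monotone (le_max_left _ _)) hn)
      (Gs_mono (hd.1.monotone (le_max_right _ _)) hm)⟩
  | smul c x _ hx =>
    obtain ⟨n, hn⟩ := hx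
    exact ⟨n, Submodule.smul_mem _ _ hn⟩

variable (hI : GoodIndex I)
include hI

/-- least upper bounds of strictly increasing sequences -/
lemma exists_ladder_of_strictMono {d : ℕ → I} (hd : StrictMono d) : ∃ δ, IsLadder d δ := by
  have := hI.wf
  have wf : WellFounded ((· < ·) : I → I → Prop) := wellFounded_lt
  have hb : {i | ∀ n, d n < i}.Nonempty := by
    obtain ⟨i, hi⟩ := hI.reg (range d) ((Cardinal.le_aleph0_iff_set_countable.2
      (countable_range d)).trans_lt hI.aleph0_lt)
    exact ⟨i, fun n => hi _ ⟨n, rfl⟩⟩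
  refine ⟨wf.min _ hb, hd, wf.min_mem _ hb, ?_⟩
  intro i hi
  by_contra hcon
  push Not at hcon
  exact wf.not_lt_min {i | ∀ n, d n < i} (x := i) hcon hi

lemma card_Gs_lt (d : I) : #(Gs d) < #I := by
  classical
  have h1 : #{x : I ⊕ I | idx x < d} < #I := by
    have : {x : I ⊕ I | idx x < d} = (Sum.inl '' Iio d) ∪ (Sum.inr '' Iio d) := by
      ext x
      rcases x with x | x <;> simp [idx]
    rw [this]
    refine (mk_union_le _ _).trans_lt ?_
    exact add_lt_of_lt hI.aleph0_lt.le (mk_image_le.trans_lt (hI.small d))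
      (mk_image_le.trans_lt (hI.small d))
  -- a surjection from finitely supported functions
  have hsurj : Function.Surjective (fun l : ({x : I ⊕ I | idx x < d} →₀ ZMod 2) =>
      (⟨Finsupp.linearCombination (ZMod 2) (fun x : {x : I ⊕ I | idx x < d} => gen (x : I ⊕ I)) l, by
        have := Finsupp.range_linearCombination (R := ZMod 2)
          (v := fun x : {x : I ⊕ I | idx x < d} => gen (x : I ⊕ I))
        have h2 : range (fun x : {x : I ⊕ I | idx x < d} => gen (x : I ⊕ I))
          = gen '' {x : I ⊕ I | idx x < d} := by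
          rw [image_eq_range]
        unfold Gs
        rw [← h2, ← this]
        exact ⟨l, rfl⟩⟩ : Gs d)) := by
    rintro ⟨g, hg⟩
    have := Finsupp.range_linearCombination (R := ZMod 2)
          (v := fun x : {x : I ⊕ I | idx x < d} => gen (x : I ⊕ I))
    have h2 : range (fun x : {x : I ⊕ I | idx x < d} => gen (x : I ⊕ I))
      = gen '' {x : I ⊕ I | idx x < d} := by
      rw [image_eq_range]
    have hg' := hg
    unfold Gs at hg'
    rw [← h2, ← this] at hg'
    obtain ⟨l, hl⟩ := hg'
    exact ⟨l, Subtype.ext hl⟩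
  refine (mk_le_of_surjective hsurj).trans_lt ?_
  rcases isEmpty_or_nonempty ({x : I ⊕ I | idx x < d}) with he | hne
  · rw [Cardinal.mk_eq_one]
    exact one_lt_aleph0.trans hI.aleph0_lt
  · rcases finite_or_infinite ({x : I ⊕ I | idx x < d}) with hf | hf
    · have : Fintype ({x : I ⊕ I | idx x < d}) := Fintype.ofFinite _
      have : Finite ({x : I ⊕ I | idx x < d} →₀ ZMod 2) := inferInstance
      exact (Cardinal.lt_aleph0_of_finite _).trans hI.aleph0_lt
    · rw [Cardinal.mk_finsupp_of_infinite]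
      refine max_lt h1 ?_
      exact (Cardinal.lt_aleph0_of_finite _).trans hI.aleph0_lt

/-- KEY LEMMA: a uniformly isolated set is contained in some `Gs d`. -/
theorem key (A : Set (I → ZMod 2)) (hAG : ∀ a ∈ A, a ∈ Gt I)
    (hA : ∀ g ∈ Gt I, ∃ ζ : I, ∀ a ∈ A, tr ζ a = tr ζ g → a = g) :
    ∃ d : I, ∀ a ∈ A, a ∈ Gs d := by
  classical
  have hA' : ∀ g : I → ZMod 2, ∃ ζ : I, g ∈ Gt I → ∀ a ∈ A, tr ζ a = tr ζ g → a = g := by
    intro g
    by_cases hg : g ∈ Gt I
    · obtain ⟨ζ, hζ⟩ := hA g hg
      exact ⟨ζ, fun _ => hζ⟩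
    · exact ⟨hI.nonempty.some, fun h => absurd h hg⟩
  choose ζ hζ using hA'
  have hstep : ∀ d : I, ∃ d' : I, d < d' ∧ ∀ g ∈ Gs d, ζ g < d' := by
    intro d
    obtain ⟨i, hi⟩ := hI.reg (ζ '' (Gs d : Set (I → ZMod 2)))
      (mk_image_le.trans_lt (card_Gs_lt hI d))
    obtain ⟨j, hj⟩ := hI.reg {d} (by simpa using one_lt_aleph0.trans hI.aleph0_lt)
    refine ⟨max i j, (hj d rfl).trans_le (le_max_right _ _), fun g hg => ?_⟩
    exact (hi _ ⟨g, hg, rfl⟩).trans_le (le_max_left _ _)
  choose step hstep1 hstep2 using hstep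
  -- good points
  have hgood : ∀ d₀ : I, ∃ δ : I, d₀ < δ ∧ ∀ g ∈ Gs δ, ζ g < δ := by
    intro d₀
    let d : ℕ → I := fun n => Nat.rec d₀ (fun _ x => step x) n
    have hd1 : ∀ n, d (n + 1) = step (d n) := fun n => rfl
    have hmono : StrictMono d := strictMono_nat_of_lt_succ fun n => by
      rw [hd1]; exact hstep1 _
    obtain ⟨δ, hδ⟩ := exists_ladder_of_strictMono hI hmono
    refine ⟨δ, hδ.2.1 0, fun g hg => ?_⟩
    obtain ⟨n, hn⟩ := exists_mem_Gs_of_ladder hδ hg
    have h5 : ζ g < d (n + 1) := hstep2 _ _ hn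
    exact h5.trans (hδ.2.1 (n + 1))
  choose good hgood1 hgood2 using hgood
  let e : ℕ → I := fun n => Nat.rec (good hI.nonempty.some) (fun _ x => good x) n
  have he1 : ∀ n, e (n + 1) = good (e n) := fun n => rfl
  have hemono : StrictMono e := strictMono_nat_of_lt_succ fun n => by
    rw [he1]; exact hgood1 _
  have hegood : ∀ n, ∀ g ∈ Gs (e n), ζ g < e n := by
    intro n
    cases n with
    | zero => exact hgood2 _
    | succ n => rw [he1]; exact hgood2 _
  obtain ⟨δ, hδ⟩ := exists_ladder_of_strictMono hI hemono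
  refine ⟨δ, fun a ha => ?_⟩
  by_contra hcon
  obtain ⟨F, hF, hF'⟩ := exists_finite_bad (hAG a ha)
  have hbad : ∀ n, e n ∈ F := by
    intro n
    by_contra hn
    have h0 := hF' _ hn
    have h1 := hegood n _ h0
    have h2 : a = tr (e n) a := by
      refine hζ _ (Gs_le_Gt _ h0) a ha ?_
      rw [tr_tr h1.le]
    apply hcon
    rw [h2]
    exact Gs_mono (hδ.2.1 n).le h0
  exact Set.infinite_of_injective_forall_mem hemono.injective hbad hF

/-- The combinatorial heart: no suitable subset. -/
theorem no_suitable (S : Set (I → ZMod 2)) (hSG : ∀ a ∈ S, a ∈ Gt I)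
    (hS : ∀ ξ : I, ∀ g ∈ Gt I, ∃ ζ : I, ∀ a ∈ S, tr ξ a ≠ 0 → tr ζ a = tr ζ g → a = g)
    (hdense : ∀ g ∈ Gt I, ∀ ξ : I, ∃ s ∈ AddSubgroup.closure S, tr ξ s = tr ξ g) : False := by
  classical
  have hh : ∀ ξ : I, ∃ d : I, ∀ a ∈ S, tr ξ a ≠ 0 → a ∈ Gs d := by
    intro ξ
    obtain ⟨d, hd⟩ := key hI {a | a ∈ S ∧ tr ξ a ≠ 0} (fun a ha => hSG a ha.1) (by
      intro g hg
      obtain ⟨ζ, hζ⟩ := hS ξ g hg
      exact ⟨ζ, fun a ha => hζ a ha.1 ha.2⟩)
    exact ⟨d, fun a ha ha' => hd a ⟨ha, ha'⟩⟩
  choose h hh using hh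
  have hstep : ∀ d : I, ∃ d' : I, d < d' ∧ h d ≤ d' := by
    intro d
    obtain ⟨j, hj⟩ := hI.reg {d} (by simpa using one_lt_aleph0.trans hI.aleph0_lt)
    exact ⟨max j (h d), (hj d rfl).trans_le (le_max_left _ _), le_max_right _ _⟩
  choose step hstep1 hstep2 using hstep
  let d : ℕ → I := fun n => Nat.rec hI.nonempty.some (fun _ x => step x) n
  have hd1 : ∀ n, d (n + 1) = step (d n) := fun n => rfl
  have hmono : StrictMono d := strictMono_nat_of_lt_succ fun n => by
    rw [hd1]; exact hstep1 _
  obtain ⟨l, hl⟩ := exists_ladder_of_strictMono hI hmono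
  have hgl : (gen (Sum.inr l) : I → ZMod 2) ∈ Gt I := Submodule.subset_span ⟨_, rfl⟩
  have hclaim : ∀ s ∈ AddSubgroup.closure S, ∃ g ∈ Gs l, tr l s = tr l g := by
    intro s hs
    induction hs using AddSubgroup.closure_induction with
    | mem a ha =>
      by_cases h0 : tr l a = 0
      · exact ⟨0, Submodule.zero_mem _, by rw [h0, map_zero]⟩
      · refine ⟨a, ?_, rfl⟩
        obtain ⟨i, hi⟩ : ∃ i, tr l a i ≠ 0 := by
          by_contra hcon
          push Not at hcon
          exact h0 (funext hcon)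
        have hil : i < l := by
          by_contra hcon
          apply hi
          rw [tr_apply, if_neg hcon]
        rw [tr_apply, if_pos hil] at hi
        obtain ⟨n, hn⟩ := hl.2.2 i hil
        have hin : i < d (n + 1) := hn.trans_lt (hmono (Nat.lt_succ_self n))
        have h3 : tr (d (n + 1)) a ≠ 0 := by
          intro hcon
          have := congrFun hcon i
          rw [tr_apply, if_pos hin] at this
          exact hi this
        have h4 := hh _ a ha h3
        refine Gs_mono ?_ h4
        have h5 : h (d (n + 1)) ≤ d (n + 1 + 1) := hstep2 _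
        exact h5.trans (hl.2.1 (n + 1 + 1)).le
    | zero => exact ⟨0, Submodule.zero_mem _, rfl⟩
    | add x y _ _ hx hy =>
      obtain ⟨g, hg, hg'⟩ := hx
      obtain ⟨g', hg1, hg1'⟩ := hy
      exact ⟨g + g', Submodule.add_mem _ hg hg1, by rw [map_add, map_add, hg', hg1']⟩
    | neg x _ hx =>
      obtain ⟨g, hg, hg'⟩ := hx
      exact ⟨-g, Submodule.neg_mem _ hg, by rw [map_neg, map_neg, hg']⟩
  obtain ⟨s, hs, hsl⟩ := hdense _ hgl l
  obtain ⟨g, hg, hsg⟩ := hclaim s hs
  obtain ⟨n, hn⟩ := exists_mem_Gs_of_ladder hl hg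
  obtain ⟨j, hj1, hj2, hj3⟩ := lad_cofinal ⟨d, hl⟩ (hl.2.1 n)
  rw [hsl] at hsg
  have h6 := (tr_eq_iff.1 hsg) j hj2
  have h7 : g j ≠ 0 := by
    rw [← h6]; exact hj3
  exact absurd (Gs_support hn h7) (not_lt.2 hj1)

end Pool.Agent.Helper75.Ladder
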