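import Mathlib
import Pool.Agent.Helper75.LadderCore

/-!
# The topological group generated by points and ladders
-/

open Set Filter Topology Cardinal

namespace Pool.Agent.Helper75.Ladder

section construction

variable (I : Type) [LinearOrder I]

/-- The underlying group, written multiplicatively. -/
abbrev LG : Type := Multiplicative (Gt I)

/-- the underlying vector -/
def vec (g : LG I) : I → ZMod 2 := (Multiplicative.toAdd g : Gt I)

variable {I}

lemma vec_mul (g h : LG I) : vec I (g * h) = vec I g + vec I h := rfl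
lemma vec_inv (g : LG I) : vec I g⁻¹ = - vec I g := rfl
lemma vec_one : vec I (1 : LG I) = 0 := rfl
lemma vec_mem (g : LG I) : vec I g ∈ Gt I := (Multiplicative.toAdd g : Gt I).2
lemma vec_injective : Function.Injective (vec I) := fun _ _ hgh =>
  Multiplicative.toAdd.injective (Subtype.ext hgh)
lemma exists_vec {f : I → ZMod 2} (hf : f ∈ Gt I) : ∃ g : LG I, vec I g = f :=
  ⟨Multiplicative.ofAdd ⟨f, hf⟩, rfl⟩

/-- The basic open subgroups. -/
def Vs (ξ : I) : Set (LG I) := {g | tr ξ (vec I g) = 0}

lemma Vs_anti {ξ ζ : I} (h : ξ ≤ ζ) : Vs ζ ⊆ Vs ξ := by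
  intro g hg
  have hg' : tr ζ (vec I g) = tr ζ 0 := by rw [map_zero]; exact hg
  have := tr_eq_mono h hg'
  rw [map_zero] at this
  exact this

/-- The filter basis of the neighbourhoods of the neutral element. -/
@[instance_reducible]
noncomputable def fb [Nonempty I] : GroupFilterBasis (LG I) :=
  groupFilterBasisOfComm (range (Vs : I → Set (LG I))) (range_nonempty _)
    (by
      rintro _ _ ⟨ξ, rfl⟩ ⟨ζ, rfl⟩
      exact ⟨_, ⟨max ξ ζ, rfl⟩, subset_inter (Vs_anti (le_max_left _ _)) (Vs_anti (le_max_right _ _))⟩)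
    (by
      rintro _ ⟨ξ, rfl⟩
      simp [Vs, vec_one])
    (by
      rintro _ ⟨ξ, rfl⟩
      refine ⟨_, ⟨ξ, rfl⟩, ?_⟩
      rintro _ ⟨g, hg, h, hh, rfl⟩
      have hg' : tr ξ (vec I g) = 0 := hg
      have hh' : tr ξ (vec I h) = 0 := hh
      change tr ξ (vec I (g * h)) = 0
      rw [vec_mul, map_add, hg', hh', add_zero])
    (by
      rintro _ ⟨ξ, rfl⟩
      refine ⟨_, ⟨ξ, rfl⟩, ?_⟩
      intro g hg
      have hg' : tr ξ (vec I g) = 0 := hg
      change tr ξ (vec I g⁻¹) = 0
      rw [vec_inv, map_neg, hg', neg_zero])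

/-- The topology. -/
@[instance_reducible]
noncomputable def ltop [Nonempty I] : TopologicalSpace (LG I) := (fb (I := I)).topology

lemma ltop_group [Nonempty I] : @IsTopologicalGroup (LG I) ltop _ :=
  (fb (I := I)).isTopologicalGroup

lemma nhds_basis [Nonempty I] (x : LG I) :
    (@nhds _ ltop x).HasBasis (fun _ : I => True) (fun ξ => {y | tr ξ (vec I y) = tr ξ (vec I x)}) := by
  have h := (fb (I := I)).nhds_hasBasis x
  refine ⟨fun t => ?_⟩
  rw [h.mem_iff]
  constructor
  · rintro ⟨_, ⟨ξ, rfl⟩, hV⟩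
    refine ⟨ξ, trivial, ?_⟩
    intro y hy
    apply hV
    refine ⟨x⁻¹ * y, ?_, by simp⟩
    change tr ξ (vec I (x⁻¹ * y)) = 0
    rw [vec_mul, vec_inv, map_add, map_neg, show tr ξ (vec I y) = tr ξ (vec I x) from hy]
    exact neg_add_cancel _
  · rintro ⟨ξ, -, hV⟩
    refine ⟨_, ⟨ξ, rfl⟩, ?_⟩
    rintro _ ⟨g, hg, rfl⟩
    apply hV
    change tr ξ (vec I (x * g)) = _
    rw [vec_mul, map_add, show tr ξ (vec I g) = 0 from hg, add_zero]

lemma exists_gt_of_good (hI : GoodIndex I) (i : I) : ∃ j, i < j := by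
  obtain ⟨j, hj⟩ := hI.reg {i} (by simpa using one_lt_aleph0.trans hI.aleph0_lt)
  exact ⟨j, hj i rfl⟩

/-- Coordinates are locally constant. -/
lemma coord_eventually (hI : GoodIndex I) [Nonempty I] (x : LG I) (i : I) :
    ∀ᶠ y in @nhds _ ltop x, vec I y i = vec I x i := by
  obtain ⟨j, hj⟩ := exists_gt_of_good hI i
  rw [(nhds_basis x).eventually_iff]
  exact ⟨j, trivial, fun y hy => tr_eq_iff.1 hy i hj⟩

lemma ltop_t2 (hI : GoodIndex I) [Nonempty I] : @T2Space (LG I) ltop := by
  let := ltop (I := I)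
  refine ⟨fun x y hxy => ?_⟩
  have : ∃ i, vec I x i ≠ vec I y i := by
    by_contra hcon
    push Not at hcon
    exact hxy (vec_injective (funext hcon))
  obtain ⟨i, hi⟩ := this
  obtain ⟨u, hu, hu', hxu⟩ := eventually_nhds_iff.1 (coord_eventually hI x i)
  obtain ⟨v, hv, hv', hyv⟩ := eventually_nhds_iff.1 (coord_eventually hI y i)
  refine ⟨u, v, hu', hv', hxu, hyv, ?_⟩
  rw [Set.disjoint_left]
  intro z hz hz'
  exact hi ((hu z hz).symm.trans (hv z hz'))

lemma ltop_t35 (hI : GoodIndex I) [Nonempty I] : @T35Space (LG I) ltop := by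
  let := ltop (I := I)
  have : IsTopologicalGroup (LG I) := ltop_group
  have : T2Space (LG I) := ltop_t2 hI
  let := IsTopologicalGroup.rightUniformSpace (LG I)
  have : CompletelyRegularSpace (LG I) := inferInstance
  exact { }

lemma vec_sq (g : LG I) : g * g = 1 := by
  apply vec_injective
  rw [vec_mul, vec_one]
  funext i
  exact CharTwo.add_self_eq_zero _

/-- The coordinate characters. -/
noncomputable def chi (i : I) : LG I →* Circle where
  toFun g := ZMod.toCircle (vec I g i)
  map_one' := by simp [vec_one]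
  map_mul' g h := by
    rw [vec_mul, Pi.add_apply, AddChar.map_add_eq_mul]

lemma chi_continuous (hI : GoodIndex I) [Nonempty I] (i : I) :
    @Continuous _ _ ltop _ (chi (I := I) i) := by
  let := ltop (I := I)
  rw [continuous_iff_continuousAt]
  intro x
  refine (continuousAt_const (y := chi i x)).congr ?_
  filter_upwards [coord_eventually hI x i] with y hy
  change ZMod.toCircle (vec I x i) = ZMod.toCircle (vec I y i)
  rw [hy]

lemma chi_separate (g : LG I) (hg : g ≠ 1) : ∃ i, chi i g ≠ 1 := by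
  have : ∃ i, vec I g i ≠ 0 := by
    by_contra hcon
    push Not at hcon
    exact hg (vec_injective (funext hcon))
  obtain ⟨i, hi⟩ := this
  refine ⟨i, ?_⟩
  intro h
  apply hi
  apply ZMod.injective_toCircle
  rw [AddChar.map_zero_eq_one]
  exact h

/-- open subgroups -/
lemma ltop_nonarch [Nonempty I] : @NonarchimedeanGroup (LG I) _ ltop := by
  let := ltop (I := I)
  have : IsTopologicalGroup (LG I) := ltop_group
  refine ⟨fun U hU => ?_⟩
  obtain ⟨ξ, -, hξ⟩ := (nhds_basis (1 : LG I)).mem_iff.1 hU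
  let H : Subgroup (LG I) :=
    { carrier := {y | tr ξ (vec I y) = tr ξ (vec I 1)}
      mul_mem' := by
        intro a b ha hb
        have ha' : tr ξ (vec I a) = tr ξ (vec I 1) := ha
        have hb' : tr ξ (vec I b) = tr ξ (vec I 1) := hb
        change tr ξ (vec I (a * b)) = tr ξ (vec I 1)
        rw [vec_mul, map_add, ha', hb', vec_one, map_zero, add_zero]
      one_mem' := rfl
      inv_mem' := by
        intro a ha
        have ha' : tr ξ (vec I a) = tr ξ (vec I 1) := ha
        change tr ξ (vec I a⁻¹) = tr ξ (vec I 1)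
        rw [vec_inv, map_neg, ha', vec_one, map_zero, neg_zero] }
  refine ⟨⟨H, ?_⟩, hξ⟩
  exact Subgroup.isOpen_of_mem_nhds (g := 1) H ((nhds_basis (1 : LG I)).mem_of_mem trivial)

/-- The group has no suitable set. -/
theorem ltop_no_suitable (hI : GoodIndex I) [Nonempty I] (S : Set (LG I))
    (hdisc : @DiscreteTopology S (@instTopologicalSpaceSubtype _ _ ltop))
    (hclosed : @IsClosed _ ltop (S ∪ {1}))
    (hdense : @Dense _ ltop (Subgroup.closure S : Set (LG I))) : False := by
  let := ltop (I := I)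
  apply no_suitable hI (vec I '' S)
  · rintro _ ⟨g, -, rfl⟩
    exact vec_mem g
  · intro ξ f hf
    obtain ⟨g, rfl⟩ := exists_vec hf
    -- a neighbourhood of `g` meeting `S` outside `V ξ` in at most `g`
    have key : ∀ᶠ y in 𝓝 g, y ∈ S → tr ξ (vec I y) ≠ 0 → y = g := by
      by_cases hgS : g ∈ S
      · have h1 : ∀ᶠ y in 𝓝 g, y ∈ S → y = g := by
          have h2 := (discreteTopology_subtype_iff.1 hdisc) g hgS
          have h3 : ∀ᶠ y in 𝓝[≠] g, y ∉ S := Filter.inf_principal_eq_bot.1 h2
          rw [eventually_nhdsWithin_iff] at h3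
          filter_upwards [h3] with y hy hyS
          by_contra hne
          exact hy hne hyS
        filter_upwards [h1] with y hy hyS _ using hy hyS
      · by_cases hg1 : g = 1
        · subst hg1
          have := (nhds_basis (1 : LG I)).mem_of_mem (i := ξ) trivial
          filter_upwards [this] with y hy _ hyne
          exfalso
          apply hyne
          rw [show tr ξ (vec I y) = tr ξ (vec I 1) from hy, vec_one, map_zero]
        · have h1 : (S ∪ {1})ᶜ ∈ 𝓝 g := hclosed.isOpen_compl.mem_nhds (by simp [hgS, hg1])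
          filter_upwards [h1] with y hy hyS _
          exact absurd (Or.inl hyS) hy
    rw [(nhds_basis g).eventually_iff] at key
    obtain ⟨ζ, -, hζ⟩ := key
    refine ⟨ζ, ?_⟩
    rintro _ ⟨y, hy, rfl⟩ h1 h2
    rw [hζ h2 hy h1]
  · intro f hf ξ
    obtain ⟨g, rfl⟩ := exists_vec hf
    obtain ⟨s, hs1, hs2⟩ := hdense.inter_nhds_nonempty
      ((nhds_basis g).mem_of_mem (i := ξ) trivial)
    refine ⟨vec I s, ?_, hs2⟩
    have hs1' : s ∈ Subgroup.closure S := hs1
    clear hs1 hs2
    induction hs1' using Subgroup.closure_induction with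
    | mem x hx => exact AddSubgroup.subset_closure ⟨x, hx, rfl⟩
    | one => rw [vec_one]; exact AddSubgroup.zero_mem _
    | mul x y _ _ hx hy => rw [vec_mul]; exact AddSubgroup.add_mem _ hx hy
    | inv x _ hx => rw [vec_inv]; exact AddSubgroup.neg_mem _ hx

end construction

end Pool.Agent.Helper75.Ladder
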