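import Mathlib
import Pool.Agent.Helper75.RUC2

set_option autoImplicit false

open Topology Set Filter
open scoped BoundedContinuousFunction Pointwise

namespace Pool.Agent.Helper75

section Decomp

variable {G : Type} [TopologicalSpace G] [Group G]

omit [TopologicalSpace G] in
/-- A maximal subset `D` of `S` such that the translates `K' d` are pairwise disjoint. -/
lemma exists_maximal_separated (K' S : Set G) :
    ∃ D ⊆ S, (∀ d ∈ D, ∀ d' ∈ D, d ≠ d' → ∀ a ∈ K', ∀ b ∈ K', a * d ≠ b * d') ∧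
      ∀ x ∈ S, x ∈ D ∨ ∃ d ∈ D, ∃ a ∈ K', ∃ b ∈ K', a * x = b * d := by
  let P : Set (Set G) := {D | D ⊆ S ∧
    ∀ d ∈ D, ∀ d' ∈ D, d ≠ d' → ∀ a ∈ K', ∀ b ∈ K', a * d ≠ b * d'}
  obtain ⟨D, hD⟩ := zorn_subset P (by
    intro c hc hchain
    refine ⟨⋃₀ c, ⟨?_, ?_⟩, fun s hs => subset_sUnion_of_mem hs⟩
    · exact sUnion_subset fun s hs => (hc hs).1
    · rintro d ⟨s, hs, hds⟩ d' ⟨s', hs', hds'⟩ hne a ha b hb
      rcases hchain.total hs hs' with h | h
      · exact (hc hs').2 d (h hds) d' hds' hne a ha b hb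
      · exact (hc hs).2 d hds d' (h hds') hne a ha b hb)
  refine ⟨D, hD.prop.1, hD.prop.2, fun x hx => ?_⟩
  by_contra hcon
  push Not at hcon
  obtain ⟨hxD, hx2⟩ := hcon
  have hins : insert x D ∈ P := by
    refine ⟨insert_subset hx hD.prop.1, ?_⟩
    rintro d (rfl | hd) d' (rfl | hd') hne a ha b hb
    · exact absurd rfl hne
    · exact hx2 d' hd' a ha b hb
    · exact (hx2 d hd b hb a ha).symm
    · exact hD.prop.2 d hd d' hd' hne a ha b hb
  exact hxD (hD.le_of_ge hins (subset_insert _ _) (mem_insert _ _))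

variable [IsTopologicalGroup G]

/-- Decomposition of a locally compact group in finitely many uniformly discrete unions of
translates of a compact set. -/
lemma exists_decomp (V K' : Set G) (hV : V ∈ 𝓝 (1 : G)) (hK' : IsCompact K')
    (hK'1 : (1 : G) ∈ K') :
    ∃ D : ℕ → Set G,
      (∀ c, ∀ d ∈ D c, ∀ d' ∈ D c, d ≠ d' → ∀ a ∈ K', ∀ b ∈ K', a * d ≠ b * d') ∧
      ∃ N, ∀ x, ∃ c < N, ∃ d ∈ D c, ∃ v ∈ V, x = v * d := by
  classical
  choose M hM1 hM2 hM3 using exists_maximal_separated K'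
  -- the covered parts
  let C : ℕ → Set G := fun n => Nat.rec (∅ : Set G) (fun _ S => S ∪ V * M Sᶜ) n
  have hCs : ∀ n, C (n + 1) = C n ∪ V * M (C n)ᶜ := fun _ => rfl
  let D : ℕ → Set G := fun n => M (C n)ᶜ
  have hCmono : Monotone C := monotone_nat_of_le_succ fun n => by
    rw [hCs]
    exact subset_union_left
  refine ⟨D, fun c => hM2 _, ?_⟩
  -- a neighbourhood `W` with `W * W⁻¹ ⊆ V`
  obtain ⟨W, hW, hWV⟩ : ∃ W ∈ 𝓝 (1 : G), ∀ a ∈ W, ∀ b ∈ W, a * b⁻¹ ∈ V := by
    have h1 : Tendsto (fun p : G × G => p.1 * p.2⁻¹) (𝓝 (1, 1)) (𝓝 1) := by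
      have h2 : Continuous fun p : G × G => p.1 * p.2⁻¹ := by fun_prop
      have := h2.tendsto ((1 : G), (1 : G))
      simpa using this
    have h3 := h1 hV
    rw [mem_map, nhds_prod_eq, mem_prod_self_iff] at h3
    obtain ⟨W, hW, hWW⟩ := h3
    exact ⟨W, hW, fun a ha b hb => hWW (mk_mem_prod ha hb)⟩
  -- `L = K'⁻¹ K'` is compact, and covered by finitely many `W * a`
  have hL : IsCompact (K'⁻¹ * K') := hK'.inv.mul hK'
  obtain ⟨s, -, hs⟩ := hL.elim_nhds_subcover (fun a => (fun z => z * a⁻¹) ⁻¹' W) (fun a _ => by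
    have h1 : Continuous fun z : G => z * a⁻¹ := continuous_mul_const _
    refine h1.continuousAt.preimage_mem_nhds ?_
    simpa using hW)
  refine ⟨s.card + 1, fun x => ?_⟩
  by_contra hcon
  push Not at hcon
  -- `x` is not in `C c` for all `c ≤ s.card + 1`
  have hxC : ∀ c ≤ s.card + 1, x ∉ C c := by
    intro c
    induction c with
    | zero => intro _ h; exact h
    | succ c ih =>
      intro hc h
      rw [hCs] at h
      rcases h with h | h
      · exact ih (by omega) h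
      · obtain ⟨v, hv, d, hd, hvd⟩ := mem_mul.1 h
        exact hcon c (by omega) d hd v hv hvd.symm
  -- choose for each `c` a point `d c ∈ D c` close to `x`
  have hclose : ∀ c : Fin (s.card + 1), ∃ d ∈ D c, d * x⁻¹ ∈ K'⁻¹ * K' := by
    intro c
    have hx : x ∈ (C c)ᶜ := hxC c (by omega)
    rcases hM3 (C c)ᶜ x hx with h | ⟨d, hd, a, ha, b, hb, hab⟩
    · refine ⟨x, h, ?_⟩
      rw [mul_inv_cancel]
      exact mem_mul.2 ⟨1, by simpa using hK'1, 1, hK'1, mul_one _⟩
    · refine ⟨d, hd, mem_mul.2 ⟨b⁻¹, by simpa using hb, a, ha, ?_⟩⟩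
      rw [eq_mul_inv_iff_mul_eq, mul_assoc, hab, inv_mul_cancel_left]
  choose d hd1 hd2 using hclose
  have hcov : ∀ c : Fin (s.card + 1), ∃ a : s, d c * x⁻¹ * (a : G)⁻¹ ∈ W := by
    intro c
    obtain ⟨a, ha, hW⟩ := mem_iUnion₂.1 (hs (hd2 c))
    exact ⟨⟨a, ha⟩, hW⟩
  choose α hα using hcov
  obtain ⟨c, c', hne, hcc'⟩ := Fintype.exists_ne_map_eq_of_card_lt α (by simp)
  -- wlog `c < c'`
  have key : ∀ c c' : Fin (s.card + 1), c < c' → α c = α c' → False := by
    intro c c' hlt heq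
    have h1 := hα c
    have h2 := hα c'
    rw [← heq] at h2
    have h3 := hWV _ h2 _ h1
    have h4 : d c' * x⁻¹ * (α c : G)⁻¹ * (d c * x⁻¹ * (α c : G)⁻¹)⁻¹ = d c' * (d c)⁻¹ := by group
    rw [h4] at h3
    have h5 : d c' ∈ C ((c : ℕ) + 1) := by
      rw [hCs]
      refine Or.inr (mem_mul.2 ⟨_, h3, d c, hd1 c, ?_⟩)
      group
    have h6 : d c' ∈ (C c')ᶜ := hM1 (C c')ᶜ (hd1 c')
    exact h6 (hCmono (show (c : ℕ) + 1 ≤ c' from hlt) h5)
  rcases lt_or_gt_of_ne hne with h | h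
  · exact key c c' h hcc'
  · exact key c' c h hcc'.symm

omit [IsTopologicalGroup G] in
/-- Supremum of an equi-right-uniformly-continuous family. -/
lemma uc_iSup {D : Type} [Nonempty D] (a : D → G → ℝ) (C : ℝ) (hC : ∀ d x, |a d x| ≤ C)
    (h : ∀ ε : ℝ, 0 < ε → ∃ W ∈ 𝓝 (1 : G), ∀ u ∈ W, ∀ d x, |a d (u * x) - a d x| < ε) :
    UC (fun x => ⨆ d, a d x) := by
  have hbdd : ∀ x, BddAbove (range fun d => a d x) := fun x =>
    ⟨C, by rintro _ ⟨d, rfl⟩; exact (le_abs_self _).trans (hC d x)⟩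
  intro ε hε
  obtain ⟨W, hW, hW2⟩ := h (ε / 2) (by positivity)
  refine ⟨W, hW, fun u hu x => ?_⟩
  rw [Real.norm_eq_abs]
  have h1 : (⨆ d, a d (u * x)) ≤ (⨆ d, a d x) + ε / 2 := by
    refine ciSup_le fun d => ?_
    have h2 := (abs_lt.1 (hW2 u hu d x)).2
    have h3 := le_ciSup (hbdd x) d
    linarith
  have h2 : (⨆ d, a d x) ≤ (⨆ d, a d (u * x)) + ε / 2 := by
    refine ciSup_le fun d => ?_
    have h2 := (abs_lt.1 (hW2 u hu d x)).1
    have h3 := le_ciSup (hbdd (u * x)) d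
    linarith
  rw [abs_lt]
  constructor <;> linarith

end Decomp

/-! ### The dimension of the closure of a uniformly discrete union of translates -/

instance {G : Type} [TopologicalSpace G] [Group G] : Nonempty (RFun G) :=
  ⟨⟨fun _ => 0, UC.const 0, 0, by simp⟩⟩

section Main

variable {G : Type} [TopologicalSpace G] [Group G] [IsTopologicalGroup G]
  [LocallyCompactSpace G] [T2Space G]

lemma dimOn_closure_translates {n : ℕ} (V K' : Set G) (hVc : IsCompact V)
    (hVK : V ⊆ interior K') (hV : DimOn V n) (D : Set G)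
    (hD : ∀ d ∈ D, ∀ d' ∈ D, d ≠ d' → ∀ a ∈ K', ∀ b ∈ K', a * d ≠ b * d') :
    DimOn (closure (ev '' (V * D))) n := by
  classical
  refine dimOn_of_refine fun ι _ U hU hcov => ?_
  -- trivial case
  rcases D.eq_empty_or_nonempty with hDe | hDne
  · refine ⟨PEmpty, inferInstance, fun _ => ∅, fun _ => isOpen_empty, ?_, fun k => k.elim, ?_⟩
    · rw [hDe]
      simp
    · intro x hx
      rw [hDe] at hx
      simp at hx
  have : Nonempty D := hDne.to_subtype
  have : CompactSpace V := isCompact_iff_compactSpace.1 hVc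
  -- real functions subordinate to `U`
  have hloc : ∀ y ∈ closure (ev '' (V * D)), ∃ φ : RFun G, (∀ x, 0 ≤ φ.f x) ∧ 0 < φ.ext y ∧
      ∃ i, ∀ z, 0 < φ.ext z → z ∈ U i := by
    intro y hy
    obtain ⟨i, hi⟩ := mem_iUnion.1 (hcov hy)
    obtain ⟨φ, h1, h2, h3⟩ := exists_rfun y (U i) ((hU i).mem_nhds hi)
    exact ⟨φ, h1, h2, i, h3⟩
  choose! Φ hΦ1 hΦ2 hΦ3 using hloc
  have hFc : IsCompact (closure (ev '' (V * D))) := isClosed_closure.isCompact
  obtain ⟨s, hs1, hs2⟩ := hFc.elim_nhds_subcover (fun y => {z | 0 < (Φ y).ext z}) (fun y hy =>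
    (isOpen_lt continuous_const (Φ y).continuous_ext).mem_nhds (hΦ2 y hy))
  -- lower bound
  have hδ : ∃ δ : ℝ, 0 < δ ∧ ∀ y ∈ closure (ev '' (V * D)), δ ≤ ∑ t : s, (Φ t).ext y := by
    rcases (closure (ev '' (V * D))).eq_empty_or_nonempty with he | hne
    · exact ⟨1, one_pos, fun y hy => by simp [he] at hy⟩
    · have hcont : Continuous fun y => ∑ t : s, (Φ t).ext y :=
        continuous_finsetSum _ fun t _ => (Φ t).continuous_ext
      obtain ⟨y₀, hy₀, hmin⟩ := hFc.exists_isMinOn hne hcont.continuousOn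
      refine ⟨_, ?_, fun y hy => hmin hy⟩
      obtain ⟨t, ht, hty⟩ := mem_iUnion₂.1 (hs2 hy₀)
      exact Finset.sum_pos' (fun t _ => RFun.ext_nonneg (hΦ1 t (hs1 t t.2)) y₀)
        ⟨⟨t, ht⟩, Finset.mem_univ _, hty⟩
  obtain ⟨δ, hδ0, hδ⟩ := hδ
  have hΦnn : ∀ (t : s) (x : G), 0 ≤ (Φ t).f x := fun t x => hΦ1 t (hs1 t t.2) x
  -- common bound
  have hbound : ∃ C : ℝ, ∀ (t : s) (x : G), |(Φ t).f x| ≤ C := by
    choose C hC using fun t : s => (Φ t).bdd
    refine ⟨∑ t, |C t|, fun t x => (hC t x).trans ((le_abs_self _).trans ?_)⟩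
    exact Finset.single_le_sum (f := fun t => |C t|) (fun _ _ => abs_nonneg _) (Finset.mem_univ t)
  obtain ⟨C, hC⟩ := hbound
  -- the family on `V`
  let F : D → V → s → ℝ := fun d v t => (Φ t).f ((v : G) * (d : G))
  have hFcont : ∀ d, Continuous (F d) := fun d => continuous_pi fun t =>
    (Φ t).uc.continuous.comp ((continuous_mul_const _).comp continuous_subtype_val)
  have hFeq : Equicontinuous F := by
    intro v₀
    rw [Metric.equicontinuousAt_iff_right]
    intro ε hε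
    have h1 : ∀ t : s, ∃ W ∈ 𝓝 (1 : G), ∀ u ∈ W, ∀ x : G,
        ‖(Φ t).f (u * x) - (Φ t).f x‖ < ε := fun t => (Φ t).uc ε hε
    choose W hW1 hW2 using h1
    have h2 : (⋂ t, W t) ∈ 𝓝 (1 : G) := (Filter.iInter_mem).2 hW1
    have h3 : Tendsto (fun v : V => (v : G) * (v₀ : G)⁻¹) (𝓝 v₀) (𝓝 1) := by
      have h4 : Continuous fun v : V => (v : G) * (v₀ : G)⁻¹ :=
        (continuous_mul_const _).comp continuous_subtype_val
      have := h4.tendsto v₀
      simpa using this
    filter_upwards [h3 h2] with v hv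
    intro d
    rw [dist_pi_lt_iff hε]
    intro t
    have h5 := hW2 t _ (mem_iInter.1 hv t) ((v₀ : G) * d)
    rw [Real.dist_eq, abs_sub_comm]
    have h6 : (v : G) * (v₀ : G)⁻¹ * ((v₀ : G) * d) = v * d := by group
    rw [h6] at h5
    exact h5
  have hmemF : ∀ (d : D) (v : V), ev ((v : G) * (d : G)) ∈ closure (ev '' (V * D)) := fun d v =>
    subset_closure ⟨_, mul_mem_mul v.2 d.2, rfl⟩
  obtain ⟨S, j, η, hSfin, hjS, hη, hS1, hS2, hS3, hS4, hS5⟩ :=
    finite_selection (dimOn_subtype hV) F hFcont hFeq C (fun d v t => hC t _)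
      (fun d v t => hΦnn t _) δ hδ0 (fun d v => hδ _ (hmemF d v))
  -- extend the functions in `S`
  have hext : ∀ φ ∈ S, ∀ t : s, ∃ ψ : G → ℝ, Continuous ψ ∧ (∀ x, 0 ≤ ψ x) ∧
      (∀ x, x ∉ K' → ψ x = 0) ∧ (∀ v : V, ψ v = φ v t) ∧ HasCompactSupport ψ := fun φ hφ t =>
    extend_compact hVc hVK (fun v => φ v t) ((continuous_apply t).comp (hS1 φ hφ))
      (fun v => hS2 φ hφ v t)
  choose! Ψ hΨ1 hΨ2 hΨ3 hΨ4 hΨ5 using hext
  have hSf := hSfin.fintype
  -- bound for the extended functions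
  have hΨb : ∃ C' : ℝ, ∀ φ ∈ S, ∀ (t : s) (x : G), |Ψ φ t x| ≤ C' := by
    have h1 : ∀ p : S × s, ∃ C' : ℝ, ∀ x, ‖Ψ p.1 p.2 x‖ ≤ C' := fun p =>
      (hΨ5 p.1 p.1.2 p.2).exists_bound_of_continuous (hΨ1 p.1 p.1.2 p.2)
    choose C' hC' using h1
    refine ⟨∑ p, |C' p|, fun φ hφ t x => ?_⟩
    refine (hC' (⟨φ, hφ⟩, t) x).trans ((le_abs_self _).trans ?_)
    exact Finset.single_le_sum (f := fun p => |C' p|) (fun _ _ => abs_nonneg _)
      (Finset.mem_univ _)
  obtain ⟨C', hC'⟩ := hΨb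
  -- the functions `a`
  let a : s → D → G → ℝ := fun t d x => Ψ (j d) t (x * (d : G)⁻¹)
  have ha_uc : ∀ t, UC (fun x => ⨆ d, a t d x) := by
    intro t
    refine uc_iSup (a t) C' (fun d x => hC' _ (hjS d) t _) fun ε hε => ?_
    have h1 : ∀ φ : S, ∃ W ∈ 𝓝 (1 : G), ∀ u ∈ W, ∀ x : G, ‖Ψ φ t (u * x) - Ψ φ t x‖ < ε :=
      fun φ => UC.of_hasCompactSupport (hΨ1 φ φ.2 t) (hΨ5 φ φ.2 t) ε hε
    choose W hW1 hW2 using h1
    refine ⟨⋂ φ, W φ, (Filter.iInter_mem).2 hW1, fun u hu d x => ?_⟩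
    have h2 := hW2 ⟨j d, hjS d⟩ u (mem_iInter.1 hu _) (x * (d : G)⁻¹)
    rw [← mul_assoc] at h2
    exact h2
  have ha_nn : ∀ t x, 0 ≤ ⨆ d, a t d x := by
    intro t x
    refine Real.iSup_nonneg fun d => hΨ2 _ (hjS d) t _
  have ha_bdd : ∀ t x, BddAbove (range fun d => a t d x) := fun t x =>
    ⟨C', by rintro _ ⟨d, rfl⟩; exact (le_abs_self _).trans (hC' _ (hjS d) t _)⟩
  -- values on `V * D`
  have ha_val : ∀ t (v : V) (d : D), (⨆ d', a t d' ((v : G) * d)) = j d v t := by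
    intro t v d
    apply le_antisymm
    · refine ciSup_le fun d' => ?_
      by_cases hdd : d' = d
      · subst hdd
        simp only [a, mul_inv_cancel_right]
        exact (hΨ4 _ (hjS _) t v).le
      · have h1 : a t d' ((v : G) * d) = 0 := by
          refine hΨ3 _ (hjS d') t _ fun hmem => ?_
          refine hD d' d'.2 d d.2 (fun h => hdd (Subtype.ext h)) _ hmem v
            (interior_subset (hVK v.2)) ?_
          group
        rw [h1]
        exact hS2 _ (hjS d) v t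
    · refine le_trans ?_ (le_ciSup (ha_bdd t _) d)
      simp only [a, mul_inv_cancel_right]
      exact (hΨ4 _ (hjS _) t v).ge
  -- the final functions
  let g : s → RFun G := fun t => ⟨fun x => min (⨆ d, a t d x) ((Φ t).f x),
    (ha_uc t).min (Φ t).uc, C, fun x => by
      rw [abs_of_nonneg (le_min (ha_nn t x) (hΦnn t x))]
      exact (min_le_right _ _).trans ((le_abs_self _).trans (hC t x))⟩
  have hg_val : ∀ t (v : V) (d : D), (g t).f ((v : G) * d) = j d v t := by
    intro t v d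
    change min (⨆ d', a t d' ((v : G) * d)) ((Φ t).f ((v : G) * d)) = _
    rw [ha_val]
    exact min_eq_left (hS3 d v t)
  have hg_le : ∀ t y, (g t).ext y ≤ (Φ t).ext y := fun t y =>
    RFun.ext_mono (fun x => min_le_right _ _) y
  refine ⟨s, inferInstance, fun t => {y | 0 < (g t).ext y}, fun t =>
    isOpen_lt continuous_const (g t).continuous_ext, ?_, ?_, ?_⟩
  · -- covering
    have hcl : closure (ev '' (V * D)) ⊆ {y | η ≤ ∑ t : s, (g t).ext y} := by
      refine closure_minimal ?_ (isClosed_le continuous_const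
        (continuous_finsetSum _ fun t _ => (g t).continuous_ext))
      rintro _ ⟨_, ⟨v, hv, d, hd, rfl⟩, rfl⟩
      change η ≤ ∑ t : s, (g t).ext (ev (v * d))
      have h1 : ∀ t : s, (g t).ext (ev (v * d)) = j ⟨d, hd⟩ ⟨v, hv⟩ t := fun t => by
        rw [RFun.ext_ev]
        exact hg_val t ⟨v, hv⟩ ⟨d, hd⟩
      simp only [h1]
      exact hS4 _ (hjS _) _
    intro y hy
    have h1 : η ≤ ∑ t : s, (g t).ext y := hcl hy
    obtain ⟨t, -, ht⟩ : ∃ t ∈ (Finset.univ : Finset s), 0 < (g t).ext y := by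
      by_contra hcon
      push Not at hcon
      have := Finset.sum_nonpos hcon
      linarith
    exact mem_iUnion.2 ⟨t, ht⟩
  · rintro ⟨t, ht⟩
    obtain ⟨i, hi⟩ := hΦ3 t (hs1 t ht)
    refine ⟨i, fun y hy => hi y ?_⟩
    exact lt_of_lt_of_le hy (hg_le ⟨t, ht⟩ y)
  · -- order
    intro y hy
    -- the set of `z` where all functions positive at `y` are positive is an open neighbourhood
    have hO : IsOpen (⋂ t : {t : s // 0 < (g t).ext y}, {z | 0 < (g t.1).ext z}) :=
      isOpen_iInter_of_finite fun t => isOpen_lt continuous_const (g t.1).continuous_ext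
    obtain ⟨_, hz, ⟨_, ⟨v, hv, d, hd, rfl⟩, rfl⟩⟩ :=
      mem_closure_iff.1 hy _ hO (mem_iInter.2 fun t => t.2)
    have h1 : ∀ t : s, 0 < (g t).ext y → 0 < j ⟨d, hd⟩ ⟨v, hv⟩ t := by
      intro t ht
      have h2 : 0 < (g t).ext (ev (v * d)) := mem_iInter.1 hz ⟨t, ht⟩
      rw [RFun.ext_ev] at h2
      rw [← hg_val t ⟨v, hv⟩ ⟨d, hd⟩]
      exact h2
    exact le_trans (card_subtype_mono h1) (hS5 _ (hjS ⟨d, hd⟩) ⟨v, hv⟩)

theorem dimLE_comp_of_dimLE {n : ℕ} (h : DimLE G n) : DimLE (Comp G) n := by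
  -- compact neighbourhoods
  obtain ⟨V, hVc, hV1⟩ := exists_compact_mem_nhds (1 : G)
  have hK'c : IsCompact (V * V) := hVc.mul hVc
  have h1V : (1 : G) ∈ V := mem_of_mem_nhds hV1
  have hVK : V ⊆ interior (V * V) := by
    intro v hv
    rw [mem_interior_iff_mem_nhds]
    have h1 : (fun x : G => v⁻¹ * x) ⁻¹' V ∈ 𝓝 v := by
      have h2 : Continuous fun x : G => v⁻¹ * x := continuous_const_mul _
      refine h2.continuousAt.preimage_mem_nhds ?_
      simpa using hV1
    refine mem_of_superset h1 fun x hx => mem_mul.2 ⟨v, hv, _, hx, mul_inv_cancel_left _ _⟩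
  have hVn : DimOn V n := (dimLE_iff_dimOn.1 h).mono_closed hVc.isClosed (subset_univ _)
  obtain ⟨D, hD1, N, hD2⟩ := exists_decomp V (V * V) hV1 hK'c
    (mem_mul.2 ⟨1, h1V, 1, h1V, mul_one _⟩)
  rw [dimLE_iff_dimOn]
  refine dimOn_univ_of_iUnion (fun c => closure (ev '' (V * D c))) (fun c => isClosed_closure)
    (fun c => dimOn_closure_translates V (V * V) hVc hVK hVn (D c) (hD1 c)) ?_
  -- covering
  have h1 : IsClosed (⋃ c ∈ Finset.range N, closure (ev '' (V * D c)) : Set (Comp G)) :=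
    isClosed_biUnion_finset fun c _ => isClosed_closure
  have h2 : range (ev : G → Comp G) ⊆ ⋃ c ∈ Finset.range N, closure (ev '' (V * D c)) := by
    rintro _ ⟨x, rfl⟩
    obtain ⟨c, hc, d, hd, v, hv, rfl⟩ := hD2 x
    exact mem_iUnion₂.2 ⟨c, Finset.mem_range.2 hc, subset_closure ⟨_, mul_mem_mul hv hd, rfl⟩⟩
  have h3 : (univ : Set (Comp G)) ⊆ ⋃ c ∈ Finset.range N, closure (ev '' (V * D c)) := by
    rw [← denseRange_ev.closure_range]
    exact closure_minimal h2 h1
  refine eq_univ_of_forall fun y => ?_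
  obtain ⟨c, -, hc⟩ := mem_iUnion₂.1 (h3 (mem_univ y))
  exact mem_iUnion.2 ⟨c, hc⟩

/-! ### The converse inequality -/

theorem dimLE_of_dimLE_comp {n : ℕ} (h : DimLE (Comp G) n) : DimLE G n := by
  classical
  have hcomp : DimOn (univ : Set (Comp G)) n := dimLE_iff_dimOn.1 h
  -- an open σ-compact subgroup
  obtain ⟨V, hVc, hV1⟩ := exists_compact_mem_nhds (1 : G)
  let H : Subgroup G := Subgroup.closure V
  have hHo : IsOpen (H : Set G) := by
    refine H.isOpen_of_mem_nhds (g := 1) (mem_of_superset hV1 Subgroup.subset_closure)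
  -- `H` is the union of compact sets
  let W : Set G := V ∪ V⁻¹
  have hWc : IsCompact W := hVc.union hVc.inv
  have hWk : ∀ k : ℕ, IsCompact (W ^ k) := by
    intro k
    induction k with
    | zero => simp
    | succ k ih => rw [pow_succ]; exact ih.mul hWc
  have hWinv : W⁻¹ = W := by
    change (V ∪ V⁻¹)⁻¹ = V ∪ V⁻¹
    rw [Set.union_inv, inv_inv, union_comm]
  have hVW : V ⊆ W := subset_union_left
  have hWH : W ⊆ H := by
    rintro x (hx | hx)
    · exact Subgroup.subset_closure hx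
    · have h1 : x⁻¹ ∈ H := Subgroup.subset_closure hx
      simpa using H.inv_mem h1
  have hHW : (H : Set G) = ⋃ k : ℕ, W ^ k := by
    apply Subset.antisymm
    · intro x hx
      induction hx using Subgroup.closure_induction with
      | mem x hx => exact mem_iUnion.2 ⟨1, by rw [pow_one]; exact hVW hx⟩
      | one => exact mem_iUnion.2 ⟨0, by rw [pow_zero]; exact Set.mem_one.2 rfl⟩
      | mul x y _ _ hx hy =>
        obtain ⟨k, hk⟩ := mem_iUnion.1 hx
        obtain ⟨l, hl⟩ := mem_iUnion.1 hy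
        exact mem_iUnion.2 ⟨k + l, by rw [pow_add]; exact mul_mem_mul hk hl⟩
      | inv x _ hx =>
        obtain ⟨k, hk⟩ := mem_iUnion.1 hx
        refine mem_iUnion.2 ⟨k, ?_⟩
        rw [← hWinv, inv_pow, Set.mem_inv, inv_inv]
        exact hk
    · refine iUnion_subset fun k => ?_
      induction k with
      | zero =>
        rw [pow_zero]
        rintro x hx
        rw [Set.mem_one.1 hx]
        exact H.one_mem
      | succ k ih =>
        rw [pow_succ]
        rintro _ ⟨a, ha, b, hb, rfl⟩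
        exact H.mul_mem (ih ha) (hWH hb)
  have hsig : SigmaCompactSpace H := by
    have h1 : IsSigmaCompact (H : Set G) := ⟨fun k => W ^ k, hWk, hHW.symm⟩
    exact isSigmaCompact_iff_sigmaCompactSpace.1 h1
  have hloc : LocallyCompactSpace H := hHo.locallyCompactSpace
  have hpar : ParacompactSpace H := inferInstance
  have hnorm : NormalSpace H := inferInstance
  -- dimension of `H`
  have hHdim : DimOn (univ : Set H) n := by
    have hcomp' : ∀ k : ℕ, IsCompact (Subtype.val ⁻¹' (W ^ k) : Set H) := by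
      intro k
      have h1 : Subtype.val '' (Subtype.val ⁻¹' (W ^ k) : Set H) = W ^ k := by
        apply Subset.antisymm
        · rintro _ ⟨x, hx, rfl⟩
          exact hx
        · intro x hx
          have h2 : x ∈ (H : Set G) := by
            rw [hHW]
            exact mem_iUnion.2 ⟨k, hx⟩
          exact ⟨⟨x, h2⟩, hx, rfl⟩
      rw [Subtype.isCompact_iff, h1]
      exact hWk k
    refine dimOn_univ_of_iUnion (fun k => (Subtype.val ⁻¹' (W ^ k) : Set H))
      (fun k => (hcomp' k).isClosed) (fun k => ?_) ?_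
    · exact dimOn_of_compact (hcomp' k) (fun x : H => ev (x : G))
        (continuous_ev.comp continuous_subtype_val)
        ((ev_injective.comp Subtype.val_injective).injOn) hcomp
    · refine eq_univ_of_forall fun x => ?_
      have hx : (x : G) ∈ (H : Set G) := x.2
      rw [hHW] at hx
      obtain ⟨k, hk⟩ := mem_iUnion.1 hx
      exact mem_iUnion.2 ⟨k, hk⟩
  -- pass to `G`
  rw [dimLE_iff_dimOn]
  intro ι _ U hU hcov
  have hex : ∀ c : G ⧸ H, ∃ V' : ι → Set H, (∀ i, IsOpen (V' i)) ∧ univ ⊆ (⋃ i, V' i) ∧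
      (∀ i, V' i ⊆ (fun h : H => c.out * (h : G)) ⁻¹' (U i)) ∧
      ∀ x ∈ (univ : Set H), Nat.card {i // x ∈ V' i} ≤ n + 1 := by
    intro c
    refine hHdim ι (fun i => (fun h : H => c.out * (h : G)) ⁻¹' (U i)) (fun i => ?_) ?_
    · exact (hU i).preimage ((continuous_const_mul _).comp continuous_subtype_val)
    · intro h _
      obtain ⟨i, hi⟩ := mem_iUnion.1 (hcov (mem_univ (c.out * (h : G))))
      exact mem_iUnion.2 ⟨i, hi⟩
  choose V' h1 h2 h3 h4 using hex
  have hq : ∀ (c : G ⧸ H) (h : H), ((c.out * (h : G) : G) : G ⧸ H) = c := by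
    intro c h
    have : ((c.out * (h : G) : G) : G ⧸ H) = ((c.out : G) : G ⧸ H) := by
      rw [eq_comm, QuotientGroup.eq, inv_mul_cancel_left]
      exact h.2
    rw [this]
    exact QuotientGroup.out_eq' c
  have hdec : ∀ x : G, ∃ h : H, x = (x : G ⧸ H).out * (h : G) := by
    intro x
    refine ⟨⟨((x : G ⧸ H).out)⁻¹ * x, ?_⟩, ?_⟩
    · rw [← QuotientGroup.eq]
      exact QuotientGroup.out_eq' _
    · simp
  refine ⟨fun i => ⋃ c : G ⧸ H, (fun h : H => c.out * (h : G)) '' (V' c i), ?_, ?_, ?_, ?_⟩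
  · intro i
    refine isOpen_iUnion fun c => ?_
    have hom : IsOpenMap (fun h : H => c.out * (h : G)) :=
      (isOpenMap_mul_left c.out).comp hHo.isOpenMap_subtype_val
    exact hom _ (h1 c i)
  · intro x _
    obtain ⟨h, hx⟩ := hdec x
    obtain ⟨i, hi⟩ := mem_iUnion.1 (h2 (x : G ⧸ H) (mem_univ h))
    exact mem_iUnion.2 ⟨i, mem_iUnion.2 ⟨(x : G ⧸ H), h, hi, hx.symm⟩⟩
  · intro i x hx
    obtain ⟨c, h, hh, rfl⟩ := mem_iUnion.1 hx
    exact h3 c i hh
  · intro x _
    obtain ⟨h, hx⟩ := hdec x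
    refine le_trans (card_subtype_mono fun i hi => ?_) (h4 (x : G ⧸ H) h (mem_univ h))
    obtain ⟨c, h', hh', hxc⟩ := mem_iUnion.1 hi
    have hxc' : c.out * (h' : G) = x := hxc
    have hc : (x : G ⧸ H) = c := by
      rw [← hxc']
      exact hq c h'
    subst hc
    have : h' = h := Subtype.ext (mul_left_cancel (hxc'.trans hx))
    rw [← this]
    exact hh'

end Main

end Pool.Agent.Helper75
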